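import Pool.Agent.H971R3.FV.Stmts

/-!
# Task `TaskFubini` of the project H971-FV
-/

set_option autoImplicit false

open MeasureTheory Set

namespace Pool.Agent.H357R3.FVFubini

open Pool.Agent.H971R3.FV

/-- the profile -/
noncomputable def Hk (k : ℕ) (u : ℝ) : ℝ := u ^ k * Real.sqrt (1 - u ^ 2)

lemma Hk_cont (k : ℕ) : Continuous (Hk k) := by
  unfold Hk
  fun_prop

lemma Hk_nonneg (k : ℕ) {u : ℝ} (hu : 0 ≤ u) : 0 ≤ Hk k u :=
  mul_nonneg (pow_nonneg hu k) (Real.sqrt_nonneg _)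

lemma Hk_zero (k : ℕ) {u : ℝ} (hu : 1 ≤ u) : Hk k u = 0 := by
  unfold Hk
  rw [Real.sqrt_eq_zero_of_nonpos (by nlinarith), mul_zero]

lemma int_le (k : ℕ) {b : ℝ} (hb : 0 ≤ b) :
    ∫ u in (0 : ℝ)..b, Hk k u ≤ ∫ u in (0 : ℝ)..1, Hk k u := by
  rcases le_or_gt b 1 with h | h
  · refine intervalIntegral.integral_mono_interval le_rfl hb h ?_
      ((Hk_cont k).intervalIntegrable _ _)
    filter_upwards [ae_restrict_mem measurableSet_Ioc] with u hu
    exact Hk_nonneg k hu.1.le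
  · have h1 := intervalIntegral.integral_add_adjacent_intervals
      ((Hk_cont k).intervalIntegrable (μ := volume) 0 1)
      ((Hk_cont k).intervalIntegrable (μ := volume) 1 b)
    have h2 : ∫ u in (1 : ℝ)..b, Hk k u = 0 := by
      have : ∫ u in (1 : ℝ)..b, Hk k u = ∫ _ in (1 : ℝ)..b, (0 : ℝ) := by
        refine intervalIntegral.integral_congr fun u hu => ?_
        rw [uIcc_of_le h.le] at hu
        exact Hk_zero k hu.1
      rw [this]
      simp
    linarith

lemma inner_le (k : ℕ) {a : ℝ} (ha : 0 < a) :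
    ∫ ρ in (0 : ℝ)..1, ρ ^ k * Real.sqrt (1 - (ρ / a) ^ 2) ≤ a ^ (k + 1) * c (k + 1) := by
  have h1 : ∀ ρ : ℝ, ρ ^ k * Real.sqrt (1 - (ρ / a) ^ 2) = a ^ k * Hk k (ρ / a) := by
    intro ρ
    unfold Hk
    rw [← mul_assoc, ← mul_pow, mul_div_cancel₀ _ ha.ne']
  simp only [h1]
  rw [intervalIntegral.integral_const_mul, intervalIntegral.integral_comp_div _ ha.ne', zero_div,
    smul_eq_mul]
  have h2 := int_le k (b := 1 / a) (by positivity)
  have h3 : c (k + 1) = ∫ u in (0 : ℝ)..1, Hk k u := by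
    unfold c Hk
    rw [Nat.add_sub_cancel]
  rw [h3, pow_succ, mul_assoc]
  exact mul_le_mul_of_nonneg_left (mul_le_mul_of_nonneg_left h2 ha.le) (by positivity)

theorem taskFubini : TaskFubini := by
  intro d L f hd hL hf hpos hE
  obtain ⟨k, rfl⟩ : ∃ k, d = k + 1 := ⟨d - 1, by omega⟩
  -- the two-variable integrand
  let g : ℝ → ℝ → ℝ := fun ρ r => ρ ^ k * Real.sqrt (1 - (ρ / f r) ^ 2)
  have hg : Measurable (Function.uncurry g) := by
    have h1 : Measurable fun p : ℝ × ℝ => f p.2 := hf.measurable.comp measurable_snd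
    have h2 : Measurable fun p : ℝ × ℝ => 1 - (p.1 / f p.2) ^ 2 :=
      measurable_const.sub ((measurable_fst.div h1).pow_const 2)
    exact (measurable_fst.pow_const k).mul h2.sqrt
  have hgn : ∀ ρ r, 0 ≤ ρ → 0 ≤ g ρ r := fun ρ r h =>
    mul_nonneg (pow_nonneg h k) (Real.sqrt_nonneg _)
  have hg1 : ∀ ρ r, 0 ≤ ρ → ρ ≤ 1 → g ρ r ≤ 1 := by
    intro ρ r h0 h1
    have e1 : ρ ^ k ≤ 1 := pow_le_one₀ h0 h1
    have e2 : Real.sqrt (1 - (ρ / f r) ^ 2) ≤ 1 := by
      rw [Real.sqrt_le_left zero_le_one, one_pow]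
      nlinarith [sq_nonneg (ρ / f r)]
    calc g ρ r ≤ 1 * 1 := mul_le_mul e1 e2 (Real.sqrt_nonneg _) zero_le_one
      _ = 1 := one_mul 1
  have hint : Integrable (Function.uncurry g)
      ((volume.restrict (Ioc (0 : ℝ) 1)).prod (volume.restrict (Ioc (0 : ℝ) L))) := by
    refine Integrable.of_bound hg.aestronglyMeasurable 1 ?_
    rw [Measure.prod_restrict]
    filter_upwards [ae_restrict_mem (measurableSet_Ioc.prod measurableSet_Ioc)] with p hp
    have h0 : 0 ≤ g p.1 p.2 := hgn _ _ hp.1.1.le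
    show ‖g p.1 p.2‖ ≤ 1
    rw [Real.norm_eq_abs, abs_of_nonneg h0]
    exact hg1 _ _ hp.1.1.le hp.1.2
  -- step A
  have hA : ∫ ρ in (0 : ℝ)..1, ρ ^ k * (Real.pi / 2 * (1 - ρ)) =
      Real.pi / 2 / (((k : ℝ) + 1) * (k + 2)) := by
    have e : ∀ ρ : ℝ, ρ ^ k * (Real.pi / 2 * (1 - ρ)) =
        Real.pi / 2 * (ρ ^ k - ρ ^ (k + 1)) := fun ρ => by ring
    simp only [e]
    rw [intervalIntegral.integral_const_mul, intervalIntegral.integral_sub
      ((continuous_pow k).intervalIntegrable _ _) ((continuous_pow (k + 1)).intervalIntegrable _ _),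
      integral_pow, integral_pow]
    push_cast
    have h1 : (k : ℝ) + 1 ≠ 0 := by positivity
    have h2 : (k : ℝ) + 1 + 1 ≠ 0 := by positivity
    have h3 : (k : ℝ) + 2 ≠ 0 := by positivity
    simp only [one_pow]
    rw [zero_pow (by omega), zero_pow (by omega)]
    field_simp
    ring
  -- step B
  have hEI : ∀ ρ : ℝ, ρ ^ k * E f L ρ = ∫ r in Ioc (0 : ℝ) L, g ρ r := by
    intro ρ
    unfold E
    rw [intervalIntegral.integral_of_le hL.le, ← integral_const_mul]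
  have hB : ∫ ρ in Ioc (0 : ℝ) 1, ρ ^ k * (Real.pi / 2 * (1 - ρ)) ≤
      ∫ ρ in Ioc (0 : ℝ) 1, ∫ r in Ioc (0 : ℝ) L, g ρ r := by
    refine setIntegral_mono_on ?_ hint.integral_prod_left measurableSet_Ioc fun ρ hρ => ?_
    · exact (Continuous.integrableOn_Icc (by fun_prop)).mono_set Ioc_subset_Icc_self
    · rw [← hEI ρ]
      refine mul_le_mul_of_nonneg_left ?_ (pow_nonneg hρ.1.le k)
      rcases hρ.2.lt_or_eq with h | h
      · exact hE ρ ⟨hρ.1, h⟩
      · rw [h, sub_self, mul_zero]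
        unfold E
        exact intervalIntegral.integral_nonneg hL.le fun r _ => Real.sqrt_nonneg _
  -- step C
  have hC : ∫ ρ in Ioc (0 : ℝ) 1, ∫ r in Ioc (0 : ℝ) L, g ρ r =
      ∫ r in Ioc (0 : ℝ) L, ∫ ρ in Ioc (0 : ℝ) 1, g ρ r := integral_integral_swap hint
  -- step D
  have hD : ∫ r in Ioc (0 : ℝ) L, ∫ ρ in Ioc (0 : ℝ) 1, g ρ r ≤
      ∫ r in Ioc (0 : ℝ) L, f r ^ (k + 1) * c (k + 1) := by
    refine setIntegral_mono_on hint.integral_prod_right ?_ measurableSet_Ioc fun r hr => ?_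
    · exact (Continuous.integrableOn_Icc (by fun_prop)).mono_set Ioc_subset_Icc_self
    · have h1 := inner_le k (hpos r hr)
      rw [intervalIntegral.integral_of_le zero_le_one] at h1
      exact h1
  have hF : ∫ r in Ioc (0 : ℝ) L, f r ^ (k + 1) * c (k + 1) =
      (∫ r in (0 : ℝ)..L, f r ^ (k + 1)) * c (k + 1) := by
    rw [integral_mul_const, intervalIntegral.integral_of_le hL.le]
  rw [intervalIntegral.integral_of_le zero_le_one] at hA
  have key : Real.pi / 2 / (((k : ℝ) + 1) * (k + 2)) ≤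
      (∫ r in (0 : ℝ)..L, f r ^ (k + 1)) * c (k + 1) := by
    rw [← hA, ← hF]
    exact hB.trans (hC.le.trans hD)
  rw [div_le_iff₀ (by positivity)] at key
  push_cast
  calc Real.pi / 2 ≤ (∫ r in (0 : ℝ)..L, f r ^ (k + 1)) * c (k + 1) * (((k : ℝ) + 1) * (k + 2)) :=
        key
    _ = _ := by ring

end Pool.Agent.H357R3.FVFubini
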