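import Pool.Agent.Horo.Indicable
import Pool.Agent.H205R3.Horo

/-!
# Countability of the horofunction boundary and the generating set

We combine `Pool.Agent.Horo` (uncountable boundaries) and `Pool.Agent.H205R3.Horo` (countable
boundaries of virtually abelian groups).
-/

set_option autoImplicit false

open Filter Topology

namespace Pool.Agent.H357R3.HoroInv

variable {G : Type} [Group G]

/-- The word length. -/
noncomputable def len (S : Finset G) (g : G) : ℕ :=
  sInf {n : ℕ | ∃ l : List G, l.length = n ∧ (∀ s ∈ l, s ∈ S) ∧ l.prod = g}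

variable {S : Finset G}

theorem len_le (l : List G) (hl : ∀ s ∈ l, s ∈ S) : len S l.prod ≤ l.length :=
  Nat.sInf_le ⟨l, rfl, hl, rfl⟩

theorem exists_geod (hs : ∀ s ∈ S, s⁻¹ ∈ S) (hS : Subgroup.closure (S : Set G) = ⊤) (g : G) :
    ∃ l : List G, l.length = len S g ∧ (∀ s ∈ l, s ∈ S) ∧ l.prod = g := by
  have hne : {n : ℕ | ∃ l : List G, l.length = n ∧ (∀ s ∈ l, s ∈ S) ∧ l.prod = g}.Nonempty := by
    have hg : g ∈ (Subgroup.closure (S : Set G)).toSubmonoid := by rw [hS]; trivial
    rw [Subgroup.closure_toSubmonoid] at hg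
    obtain ⟨l, hl, hp⟩ := Submonoid.exists_list_of_mem_closure hg
    refine ⟨l.length, l, rfl, fun s h => ?_, hp⟩
    rcases hl s h with h | h
    · exact h
    · have := hs s⁻¹ (Set.mem_inv.1 h)
      rwa [inv_inv] at this
  exact Nat.sInf_mem hne

theorem len_mul_le (hs : ∀ s ∈ S, s⁻¹ ∈ S) (hS : Subgroup.closure (S : Set G) = ⊤) (x y : G) :
    len S (x * y) ≤ len S x + len S y := by
  obtain ⟨l, h1, h2, h3⟩ := exists_geod hs hS x
  obtain ⟨l', h1', h2', h3'⟩ := exists_geod hs hS y
  have := len_le (S := S) (l ++ l') (by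
    intro s hsl
    rcases List.mem_append.1 hsl with h | h
    · exact h2 s h
    · exact h2' s h)
  rw [List.prod_append, h3, h3', List.length_append, h1, h1'] at this
  exact this

theorem len_inv_le (hs : ∀ s ∈ S, s⁻¹ ∈ S) (hS : Subgroup.closure (S : Set G) = ⊤) (x : G) :
    len S x⁻¹ ≤ len S x := by
  obtain ⟨l, h1, h2, h3⟩ := exists_geod hs hS x
  have := len_le (S := S) (l.map fun a => a⁻¹).reverse (by
    intro s hsl
    rw [List.mem_reverse, List.mem_map] at hsl
    obtain ⟨a, ha, rfl⟩ := hsl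
    exact hs a (h2 a ha))
  rw [← List.prod_inv_reverse, h3, List.length_reverse, List.length_map, h1] at this
  exact this

theorem lenFun (hs : ∀ s ∈ S, s⁻¹ ∈ S) (hS : Subgroup.closure (S : Set G) = ⊤) :
    Pool.Agent.Horo.LenFun (len S) := by
  refine ⟨?_, ?_, ?_, len_mul_le hs hS, ?_, ?_⟩
  · intro n
    have hfin : {l : List S | l.length ≤ n}.Finite := List.finite_length_le S n
    refine (hfin.image fun l => (l.map Subtype.val).prod).subset ?_
    intro x hx
    obtain ⟨l, h1, h2, h3⟩ := exists_geod hs hS x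
    refine ⟨l.pmap (fun a h => (⟨a, h⟩ : S)) h2, ?_, ?_⟩
    · simp only [Set.mem_ofPred_eq, List.length_pmap, h1]
      exact hx
    · simp [List.map_pmap, h3]
  · exact Nat.le_zero.1 (len_le (S := S) [] (by simp))
  · intro x hx
    obtain ⟨l, h1, h2, h3⟩ := exists_geod hs hS x
    rw [hx] at h1
    rw [← h3, List.length_eq_zero_iff.1 h1, List.prod_nil]
  · intro x
    refine le_antisymm (len_inv_le hs hS x) ?_
    have := len_inv_le hs hS x⁻¹
    rwa [inv_inv] at this
  · intro x k hk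
    obtain ⟨l, h1, h2, h3⟩ := exists_geod hs hS x
    have h4 := len_le (S := S) (l.take k) fun s h => h2 s (List.mem_of_mem_take h)
    have h5 := len_le (S := S) (l.drop k) fun s h => h2 s (List.mem_of_mem_drop h)
    have h6 : (l.take k).prod * (l.drop k).prod = x := by rw [List.prod_take_mul_prod_drop, h3]
    have h7 : (l.drop k).prod = (l.take k).prod⁻¹ * x := by rw [← h6, inv_mul_cancel_left]
    rw [h7, List.length_drop, h1] at h5
    rw [List.length_take, h1] at h4
    have h8 := len_mul_le hs hS (l.take k).prod ((l.take k).prod⁻¹ * x)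
    rw [mul_inv_cancel_left] at h8
    refine ⟨(l.take k).prod, ?_, ?_⟩ <;> omega

/-- The set of the normalised distance functions. -/
def ran (d : G → G → ℕ) : Set (G → ℝ) :=
  Set.range (fun x : G => fun z : G => (d z x : ℝ) - (d 1 x : ℝ))

omit [Group G] in
theorem closed_cast : Topology.IsClosedEmbedding
    (fun f : G → ℤ => fun z => ((f z : ℤ) : ℝ)) := by
  have h := Topology.IsClosedEmbedding.piMap (fun _ : G => Int.isClosedEmbedding_coe_real)
  exact h

/-- Transfer between integer and real valued functions. -/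
theorem transfer {d : G → G → ℕ} (hd : ∀ z x, d z x = len S (z⁻¹ * x)) :
    (closure (ran d) \ ran d).Countable ↔
      (closure (Set.range (Pool.Agent.Horo.bf (len S))) \
        Set.range (Pool.Agent.Horo.bf (len S))).Countable := by
  have hA : ran d = (fun f : G → ℤ => fun z => ((f z : ℤ) : ℝ)) ''
      Set.range (Pool.Agent.Horo.bf (len S)) := by
    rw [← Set.range_comp, ran]
    congr 1
    funext x z
    simp [Pool.Agent.Horo.bf, hd]
  have hinj := (closed_cast (G := G)).injective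
  rw [hA, (closed_cast (G := G)).closure_image_eq, ← Set.image_sdiff hinj]
  exact ⟨fun h => Set.countable_of_injective_of_countable_image hinj.injOn h,
    fun h => h.image _⟩

/-- Exponential growth: for some finite set `U` the number of products of `n` elements of `U`
grows exponentially. -/
def Exp (G : Type) [Group G] : Prop :=
  ∃ (U : Finset G) (c C : ℝ), 1 < c ∧ ∀ n : ℕ, c ^ n ≤
    C * (Set.ncard {x : G | ∃ l : List G, l.length = n ∧ (∀ s ∈ l, s ∈ U) ∧ l.prod = x} : ℝ)

theorem len_prod_le (hs : ∀ s ∈ S, s⁻¹ ∈ S) (hS : Subgroup.closure (S : Set G) = ⊤)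
    {U : Finset G} {k : ℕ} (hk : ∀ u ∈ U, len S u ≤ k) :
    ∀ l : List G, (∀ s ∈ l, s ∈ U) → len S l.prod ≤ k * l.length := by
  intro l
  induction l with
  | nil =>
    intro _
    simpa using (lenFun hs hS).one.le
  | cons a l ih =>
    intro hl
    rw [List.prod_cons, List.length_cons]
    have h1 := len_mul_le hs hS a l.prod
    have h2 := ih fun s h => hl s (List.mem_cons_of_mem _ h)
    have h3 := hk a (hl a List.mem_cons_self)
    rw [Nat.mul_succ]
    omega

theorem growth (hs : ∀ s ∈ S, s⁻¹ ∈ S) (hS : Subgroup.closure (S : Set G) = ⊤) (hE : Exp G) :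
    ∃ c C : ℝ, 1 < c ∧
      ∀ n : ℕ, c ^ n ≤ C * ((Pool.Agent.Horo.ball (lenFun hs hS) n).card : ℝ) := by
  obtain ⟨U, c, C, hc, hgr⟩ := hE
  have hL := lenFun hs hS
  set k : ℕ := U.sup (len S) + 1 with hk
  have hk1 : ∀ u ∈ U, len S u ≤ k := fun u hu => (Finset.le_sup hu).trans (Nat.le_succ _)
  have hk0 : k ≠ 0 := by omega
  have hcard : ∀ n, Set.ncard {x : G | ∃ l : List G, l.length = n ∧ (∀ s ∈ l, s ∈ U) ∧
      l.prod = x} ≤ (Pool.Agent.Horo.ball hL (k * n)).card := by
    intro n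
    rw [← Set.ncard_coe_finset]
    refine Set.ncard_le_ncard ?_ (Finset.finite_toSet _)
    rintro x ⟨l, h1, h2, rfl⟩
    have := len_prod_le hs hS hk1 l h2
    rw [h1] at this
    exact Finset.mem_coe.2 ((Pool.Agent.Horo.mem_ball hL).2 this)
  have hC : 0 < C := by
    have := hgr 0
    by_contra hcon
    push Not at hcon
    rw [pow_zero] at this
    have h2 := mul_nonpos_of_nonpos_of_nonneg hcon (Nat.cast_nonneg (α := ℝ)
      (Set.ncard {x : G | ∃ l : List G, l.length = 0 ∧ (∀ s ∈ l, s ∈ U) ∧ l.prod = x}))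
    linarith
  have hc0 : 0 < c := by linarith
  refine ⟨c ^ ((k : ℝ)⁻¹), c * C, Real.one_lt_rpow hc (by positivity), fun m => ?_⟩
  have hpow : (c ^ ((k : ℝ)⁻¹)) ^ k = c := Real.rpow_inv_natCast_pow hc0.le hk0
  have h1 : (1 : ℝ) ≤ c ^ ((k : ℝ)⁻¹) := (Real.one_lt_rpow hc (by positivity)).le
  have hdiv := Nat.div_add_mod m k
  have hmod := Nat.mod_lt m (Nat.pos_of_ne_zero hk0)
  have h2 : (c ^ ((k : ℝ)⁻¹)) ^ m ≤ (c ^ ((k : ℝ)⁻¹)) ^ (k * (m / k) + k) :=
    pow_le_pow_right₀ h1 (by omega)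
  have h3 : (c ^ ((k : ℝ)⁻¹)) ^ (k * (m / k) + k) = c ^ (m / k) * c := by
    rw [pow_add, pow_mul, hpow]
  have h4 := hgr (m / k)
  have h5 : ((Pool.Agent.Horo.ball hL (k * (m / k))).card : ℝ) ≤
      ((Pool.Agent.Horo.ball hL m).card : ℝ) := by
    refine Nat.cast_le.2 (Finset.card_le_card ?_)
    intro x hx
    rw [Pool.Agent.Horo.mem_ball] at hx ⊢
    omega
  have h6 : ((Set.ncard {x : G | ∃ l : List G, l.length = m / k ∧ (∀ s ∈ l, s ∈ U) ∧
      l.prod = x} : ℕ) : ℝ) ≤ ((Pool.Agent.Horo.ball hL m).card : ℝ) :=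
    (Nat.cast_le.2 (hcard (m / k))).trans h5
  calc (c ^ ((k : ℝ)⁻¹)) ^ m ≤ c ^ (m / k) * c := h2.trans_eq h3
    _ ≤ (C * ((Pool.Agent.Horo.ball hL m).card : ℝ)) * c :=
        mul_le_mul_of_nonneg_right (h4.trans (mul_le_mul_of_nonneg_left h6 hC.le)) hc0.le
    _ = c * C * ((Pool.Agent.Horo.ball hL m).card : ℝ) := by ring

theorem uncountable (hs : ∀ s ∈ S, s⁻¹ ∈ S) (hS : Subgroup.closure (S : Set G) = ⊤)
    (hG : Exp G ∨ ¬ Pool.Agent.PackIndex.IsAmenable G) :
    ¬ (closure (Set.range (Pool.Agent.Horo.bf (len S))) \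
        Set.range (Pool.Agent.Horo.bf (len S))).Countable := by
  have hL := lenFun hs hS
  have hgrowth : ∃ c C : ℝ, 1 < c ∧ ∀ n : ℕ, c ^ n ≤
      C * ((Pool.Agent.Horo.ball hL n).card : ℝ) := by
    rcases hG with h | h
    · exact growth hs hS h
    · by_contra hcon
      exact h (Pool.Agent.Horo.amenable_of_not_exp hL hcon)
  obtain ⟨c, C, hc, hgrow⟩ := hgrowth
  exact Pool.Agent.Horo.core hL hc hgrow

/-- Virtually abelian. -/
def VAb (G : Type) [Group G] : Prop :=
  ∃ A : Subgroup G, A.FiniteIndex ∧ ∀ a ∈ A, ∀ b ∈ A, a * b = b * a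

/-- No subgroup of finite index maps onto `ℤ`. -/
def NotVInd (G : Type) [Group G] : Prop :=
  ∀ H : Subgroup G, H.FiniteIndex → ∀ θ : H →* Multiplicative ℤ, θ = 1

/-- The class of groups which is treated. -/
def Cls (G : Type) [Group G] : Prop :=
  VAb G ∨ Exp G ∨ ¬ Pool.Agent.PackIndex.IsAmenable G ∨ NotVInd G

theorem ran_mf (hs : ∀ s ∈ S, s⁻¹ ∈ S) (hS : Subgroup.closure (S : Set G) = ⊤)
    {d : G → G → ℕ} (hd : ∀ z x, d z x = len S (z⁻¹ * x)) :
    Set.range (Pool.Agent.H205R3.Horo.mf S) = ran d := by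
  have hwl : ∀ g, Pool.Agent.H205R3.Horo.wl S g = len S g := by
    intro g
    have : ∀ s : G, (s ∈ S ∨ s⁻¹ ∈ S) ↔ s ∈ S := by
      intro s
      refine ⟨fun h => ?_, Or.inl⟩
      rcases h with h | h
      · exact h
      · have := hs _ h
        rwa [inv_inv] at this
    simp only [Pool.Agent.H205R3.Horo.wl, len, this]
  have hL := lenFun hs hS
  unfold ran
  congr 1
  funext x y
  simp only [Pool.Agent.H205R3.Horo.mf, hwl, hd]
  have h1 : len S (x⁻¹ * y) = len S (y⁻¹ * x) := by
    rw [← hL.inv (x⁻¹ * y)]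
    congr 1
    group
  have h2 : len S (x⁻¹ * 1) = len S (1⁻¹ * x) := by
    rw [← hL.inv (x⁻¹ * 1)]
    congr 1
    group
  rw [h1, h2]

/-- In the class, the boundary is countable exactly for virtually abelian groups. -/
theorem countable_iff (hG : Cls G) (hs : ∀ s ∈ S, s⁻¹ ∈ S)
    (hS : Subgroup.closure (S : Set G) = ⊤)
    {d : G → G → ℕ} (hd : ∀ z x, d z x = len S (z⁻¹ * x)) :
    (closure (ran d) \ ran d).Countable ↔ VAb G := by
  constructor
  · intro hcount
    rcases hG with h | h | h | h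
    · exact h
    · exact absurd ((transfer hd).1 hcount) (uncountable hs hS (Or.inl h))
    · exact absurd ((transfer hd).1 hcount) (uncountable hs hS (Or.inr h))
    · rcases finite_or_infinite G with hf | hinf
      · exact ⟨⊥, inferInstance, by
          intro a ha b hb
          rw [Subgroup.mem_bot.1 ha, Subgroup.mem_bot.1 hb]⟩
      · by_cases ham : Pool.Agent.PackIndex.IsAmenable G
        · obtain ⟨H, hH, θ, hθ⟩ :=
            Pool.Agent.Horo.indicable (lenFun hs hS) ham ((transfer hd).1 hcount)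
          exact absurd (h H hH θ) hθ
        · exact absurd ((transfer hd).1 hcount) (uncountable hs hS (Or.inr ham))
  · rintro ⟨A, hA, hcomm⟩
    have := Pool.Agent.H205R3.Horo.countable_closure A hA hcomm S hS
    rw [ran_mf hs hS hd] at this
    exact this.mono Set.sdiff_subset

end Pool.Agent.H357R3.HoroInv
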