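import Pool.Agent.H357R3.HoroInv

/-!
# Finite orbits in countable horofunction boundaries
-/

set_option autoImplicit false

open Filter Topology Pool.Agent.Horo

namespace Pool.Agent.H357R3.HoroOrbit

open Pool.Agent.H357R3.HoroInv

variable {G : Type} [Group G] {L : G → ℕ}

/-- An infinite amenable group with countable boundary has a finite orbit in the boundary. -/
theorem finite_orbit [Infinite G] (hL : LenFun L) (ham : Pool.Agent.PackIndex.IsAmenable G)
    (hcount : (closure (Set.range (bf L)) \ Set.range (bf L)).Countable) :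
    ∃ b : G → ℤ, (∀ n : ℕ, ∃ x, n ≤ L x ∧ ∀ y, L y ≤ n → bf L x y = b y) ∧
      (Set.range fun g : G => fun y : G => b (g⁻¹ * y) - b g⁻¹).Finite := by
  classical
  obtain ⟨m, m0, m1, madd, minv⟩ := ham
  obtain ⟨b, -, η, hη, hbη⟩ := exists_atom hL m0 m1 madd hcount
  have mempty : m ∅ = 0 := by
    have h1 := madd ∅ ∅ (Set.disjoint_empty _)
    rw [Set.union_empty] at h1
    linarith
  have hne : ∀ F, (cyl L b F).Nonempty := by
    intro F
    by_contra h
    rw [Set.not_nonempty_iff_eq_empty] at h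
    have := hbη F
    rw [h, mempty] at this
    linarith
  have hb1 : b 1 = 0 := by
    obtain ⟨x, hx⟩ := hne {1}
    rw [← hx 1 (Finset.mem_singleton_self 1), bf_one]
  let β : Fn G := ⟨b, hb1⟩
  -- the orbit is finite
  have horb : (MulAction.orbit G β).Finite := by
    by_contra hinf
    obtain ⟨n, hn⟩ := exists_nat_gt (1 / η)
    obtain ⟨t, hts, htc⟩ := Set.Infinite.exists_subset_card_eq hinf n
    have hz : ∀ p : Fn G × Fn G, ∃ z, p.1 ≠ p.2 → p.1.1 z ≠ p.2.1 z := by
      intro p
      by_cases h : p.1 = p.2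
      · exact ⟨1, fun h' => absurd h h'⟩
      · by_contra hcon
        push Not at hcon
        exact h (Subtype.ext (funext fun z => (hcon z).2))
    choose z hz using hz
    let F : Finset G := (t ×ˢ t).image z
    have h1 := card_mul_le (η := η) m0 m1 madd t (fun f => cyl L f.1 F) (by
      intro f hf f' hf' hff'
      rw [Set.disjoint_left]
      intro x hx hx'
      have hzF : z (f, f') ∈ F := Finset.mem_image_of_mem _ (Finset.mem_product.2 ⟨hf, hf'⟩)
      exact hz (f, f') hff' ((hx _ hzF).symm.trans (hx' _ hzF))) (by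
      intro f hf
      obtain ⟨g, hg⟩ := hts hf
      have hg' : g • β = f := hg
      have h2 : (fun x => g * x) '' (cyl L b (F.image (fun z => g⁻¹ * z) ∪ {g⁻¹}))
          ⊆ cyl L f.1 F := by
        rintro _ ⟨x, hx, rfl⟩ z hzF
        show bf L (g * x) z = f.1 z
        rw [bf_smul, hx (g⁻¹ * z) (Finset.mem_union_left _ (Finset.mem_image_of_mem _ hzF)),
          hx g⁻¹ (Finset.mem_union_right _ (Finset.mem_singleton_self _)), ← hg']
        rfl
      calc η ≤ m (cyl L b (F.image (fun z => g⁻¹ * z) ∪ {g⁻¹})) := hbη _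
        _ = m ((fun x => g * x) '' (cyl L b (F.image (fun z => g⁻¹ * z) ∪ {g⁻¹}))) :=
          (minv _ _).symm
        _ ≤ _ := fadd_mono m0 madd _ _ h2)
    rw [htc] at h1
    rw [div_lt_iff₀ hη] at hn
    linarith
  -- the limit is on the boundary
  have hbA : ∀ x, bf L x ≠ b := by
    intro x₀ hx₀
    have hinj : Function.Injective fun g : G => g • β := by
      intro g g' h
      have h1 : bf L (g * x₀) = bf L (g' * x₀) := by
        funext z
        have h2 := congrFun (congrArg Subtype.val h) z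
        rw [bf_smul, bf_smul, hx₀]
        exact h2
      exact mul_right_cancel (bf_inj hL h1)
    exact (Set.infinite_range_of_injective hinj) horb
  refine ⟨b, fun n => ?_, ?_⟩
  · have hz : ∀ x : G, ∃ z, bf L x z ≠ b z := by
      intro x
      by_contra h
      push Not at h
      exact hbA x (funext h)
    choose z hz using hz
    let F : Finset G := ball hL n ∪ (ball hL n).image z
    obtain ⟨x, hx⟩ := hne F
    have hxn : n ≤ L x := by
      by_contra h
      push Not at h
      have h1 : z x ∈ F := Finset.mem_union_right _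
        (Finset.mem_image_of_mem _ ((mem_ball hL).2 h.le))
      exact hz x (hx _ h1)
    exact ⟨x, hxn, fun y hy => hx y (Finset.mem_union_left _ ((mem_ball hL).2 hy))⟩
  · refine (horb.image fun γ : Fn G => γ.1).subset ?_
    rintro _ ⟨g, rfl⟩
    exact ⟨g • β, ⟨g, rfl⟩, rfl⟩

theorem main [Infinite G] {S : Finset G} (hs : ∀ s ∈ S, s⁻¹ ∈ S)
    (hS : Subgroup.closure (S : Set G) = ⊤)
    (hcount : (closure (Set.range (bf (len S))) \ Set.range (bf (len S))).Countable) :
    ∃ f : G → ℝ,
      (∃ x : ℕ → G, Tendsto (fun n : ℕ => ((len S (x n)⁻¹ : ℕ) : ℝ)) atTop atTop ∧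
        ∀ y : G, Tendsto (fun n : ℕ => ((len S ((x n)⁻¹ * y) : ℕ) : ℝ) -
          ((len S (x n)⁻¹ : ℕ) : ℝ)) atTop (nhds (f y))) ∧
      (Set.range (fun g : G => fun y : G => f (g⁻¹ * y) - f g⁻¹)).Finite := by
  have hL := lenFun hs hS
  have ham : Pool.Agent.PackIndex.IsAmenable G := by
    by_contra h
    exact uncountable hs hS (Or.inr h) hcount
  obtain ⟨b, hb, hfin⟩ := finite_orbit hL ham hcount
  choose x hx1 hx2 using hb
  refine ⟨fun y => (b y : ℝ), ⟨x, ?_, fun y => ?_⟩, ?_⟩
  · refine tendsto_atTop_mono (fun n => ?_) tendsto_natCast_atTop_atTop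
    rw [hL.inv]
    exact Nat.cast_le.2 (hx1 n)
  · refine tendsto_const_nhds.congr' ?_
    filter_upwards [eventually_ge_atTop (len S y)] with n hn
    have h1 := hx2 n y hn
    have h2 : len S ((x n)⁻¹ * y) = len S (y⁻¹ * x n) := by
      rw [← hL.inv ((x n)⁻¹ * y)]
      congr 1
      group
    rw [h2, hL.inv, ← h1]
    simp [bf]
  · refine (hfin.image fun (h : G → ℤ) (y : G) => ((h y : ℤ) : ℝ)).subset ?_
    rintro _ ⟨g, rfl⟩
    refine ⟨_, ⟨g, rfl⟩, ?_⟩
    funext y
    simp

end Pool.Agent.H357R3.HoroOrbit
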