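import Mathlib

set_option autoImplicit false

namespace Pool.Agent.H357R3

open Module

section Abs

variable {E : Type*} [NormedAddCommGroup E] [InnerProductSpace ℝ E] [FiniteDimensional ℝ E]

/-- the centralizer of a set `V` in the subspace `S` -/
def cen (B : E →ₗ[ℝ] E →ₗ[ℝ] E) (S : Submodule ℝ E) (V : Set E) : Submodule ℝ E where
  carrier := {x | x ∈ S ∧ ∀ v ∈ V, B x v = 0}
  add_mem' := by
    rintro a b ⟨ha, ha'⟩ ⟨hb, hb'⟩
    refine ⟨S.add_mem ha hb, fun v hv => ?_⟩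
    rw [map_add, LinearMap.add_apply, ha' v hv, hb' v hv, add_zero]
  zero_mem' := ⟨S.zero_mem, fun v _ => by rw [map_zero, LinearMap.zero_apply]⟩
  smul_mem' := by
    rintro c a ⟨ha, ha'⟩
    refine ⟨S.smul_mem c ha, fun v hv => ?_⟩
    rw [map_smul, LinearMap.smul_apply, ha' v hv, smul_zero]

omit [FiniteDimensional ℝ E] in
theorem mem_cen {B : E →ₗ[ℝ] E →ₗ[ℝ] E} {S : Submodule ℝ E} {V : Set E} {x : E} :
    x ∈ cen B S V ↔ x ∈ S ∧ ∀ v ∈ V, B x v = 0 := Iff.rfl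

/-- conclusion of the stable maximal abelian subalgebra lemma -/
def Goal (B : E →ₗ[ℝ] E →ₗ[ℝ] E) (θ : E ≃ₗ[ℝ] E) (S : Submodule ℝ E) : Prop :=
  ∃ T ≤ S, (∀ x ∈ T, ∀ y ∈ T, B x y = 0) ∧ ((∀ x ∈ T, θ x ∈ T) ∧ ∀ x ∈ T, θ.symm x ∈ T) ∧
    (∀ x ∈ S, (∀ t ∈ T, B x t = 0) → x ∈ T)

theorem stepV (B : E →ₗ[ℝ] E →ₗ[ℝ] E) (θ : E ≃ₗ[ℝ] E) (S : Submodule ℝ E)
    (hsk : ∀ x y, B x y = - B y x)
    (hjac : ∀ x y z, B x (B y z) = B (B x y) z + B y (B x z))
    (hSB : ∀ x ∈ S, ∀ y ∈ S, B x y ∈ S)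
    (hSθ : ∀ x ∈ S, θ x ∈ S) (hSθ' : ∀ x ∈ S, θ.symm x ∈ S)
    (n : ℕ) (hn : finrank ℝ S ≤ n + 1)
    (ih : ∀ S' : Submodule ℝ E, finrank ℝ S' ≤ n → S' ≤ S → (∀ x ∈ S', ∀ y ∈ S', B x y ∈ S') →
      (∀ x ∈ S', θ x ∈ S') → (∀ x ∈ S', θ.symm x ∈ S') → Goal B θ S')
    (V : Set E) (hVS : ∀ v ∈ V, v ∈ S) (hVV : ∀ v ∈ V, ∀ w ∈ V, B v w = 0)
    (hVn : ∃ v ∈ V, ∃ x ∈ S, B x v ≠ 0)
    (hVθ : ∀ x ∈ S, (∀ v ∈ V, B x v = 0) → ∀ v ∈ V, B (θ x) v = 0)
    (hVθ' : ∀ x ∈ S, (∀ v ∈ V, B x v = 0) → ∀ v ∈ V, B (θ.symm x) v = 0) :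
    Goal B θ S := by
  have hle : cen B S V ≤ S := fun x hx => hx.1
  have hlt : cen B S V < S := by
    refine lt_of_le_of_ne hle ?_
    intro he
    obtain ⟨v, hv, x, hx, hxv⟩ := hVn
    rw [← he] at hx
    exact hxv (hx.2 v hv)
  have hfr := Submodule.finrank_lt_finrank_of_lt hlt
  obtain ⟨T, hTS, hTab, hTθ, hTmax⟩ := ih (cen B S V) (by omega) hle
    (by
      rintro x ⟨hx, hx'⟩ y ⟨hy, hy'⟩
      refine ⟨hSB x hx y hy, fun v hv => ?_⟩
      have h1 := hjac x y v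
      rw [hy' v hv, hx' v hv, map_zero, map_zero, add_zero] at h1
      exact h1.symm)
    (fun x hx => ⟨hSθ x hx.1, hVθ x hx.1 hx.2⟩)
    (fun x hx => ⟨hSθ' x hx.1, hVθ' x hx.1 hx.2⟩)
  refine ⟨T, hTS.trans hle, hTab, hTθ, ?_⟩
  intro x hx hxT
  apply hTmax x _ hxT
  refine ⟨hx, fun v hv => hxT v ?_⟩
  apply hTmax v ⟨hVS v hv, hVV v hv⟩
  intro t ht
  rw [hsk, (hTS ht).2 v hv, neg_zero]

theorem stable (B : E →ₗ[ℝ] E →ₗ[ℝ] E) (S₀ : Submodule ℝ E)
    (hsk : ∀ x y, B x y = - B y x)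
    (hjac : ∀ x y z, B x (B y z) = B (B x y) z + B y (B x z))
    (hinv : ∀ x ∈ S₀, ∀ y z, inner ℝ (B x y) z = - inner ℝ y (B x z))
    (θ : E ≃ₗ[ℝ] E) (hiso : ∀ x y, inner ℝ (θ x) (θ y) = inner ℝ x y)
    (hθ : ∀ x y, θ (B x y) = B (θ x) (θ y)) :
    ∀ (n : ℕ) (S : Submodule ℝ E), finrank ℝ S ≤ n → S ≤ S₀ → (∀ x ∈ S, ∀ y ∈ S, B x y ∈ S) →
      (∀ x ∈ S, θ x ∈ S) → (∀ x ∈ S, θ.symm x ∈ S) → Goal B θ S := by
  have hθs : ∀ x y, θ.symm (B x y) = B (θ.symm x) (θ.symm y) := by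
    intro x y
    apply θ.injective
    rw [hθ]
    simp
  have hiso' : ∀ x y, inner ℝ (θ.symm x) y = inner ℝ x (θ y) := by
    intro x y
    rw [← hiso]
    simp
  have hiso'' : ∀ x y, inner ℝ (θ x) y = inner ℝ x (θ.symm y) := by
    intro x y
    rw [← hiso x]
    simp
  intro n
  induction n with
  | zero =>
    intro S hS _ _ _ _
    have h0 : S = ⊥ := by
      rw [← Submodule.finrank_eq_zero (R := ℝ)]; omega
    refine ⟨⊥, bot_le, ?_, ?_, ?_⟩
    · intro x hx y _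
      rw [(Submodule.mem_bot ℝ).1 hx, map_zero, LinearMap.zero_apply]
    · constructor
      · intro x hx
        rw [(Submodule.mem_bot ℝ).1 hx, map_zero]
        exact Submodule.zero_mem _
      · intro x hx
        rw [(Submodule.mem_bot ℝ).1 hx, map_zero]
        exact Submodule.zero_mem _
    · intro x hx _
      rw [h0] at hx
      exact hx
  | succ n ih =>
    intro S hn hS₀ hSB hSθ hSθ'
    by_cases hab : ∀ x ∈ S, ∀ y ∈ S, B x y = 0
    · exact ⟨S, le_rfl, hab, ⟨hSθ, hSθ'⟩, fun x hx _ => hx⟩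
    push Not at hab
    obtain ⟨x₀, hx₀, y₀, hy₀, hxy₀⟩ := hab
    set Z : Submodule ℝ E := cen B S (S : Set E) with hZ
    have hZθ : ∀ z ∈ Z, θ z ∈ Z := by
      rintro z ⟨hz, hz'⟩
      refine ⟨hSθ z hz, fun x hx => ?_⟩
      have : B (θ z) x = θ (B z (θ.symm x)) := by rw [hθ]; simp
      rw [this, hz' _ (hSθ' x hx), map_zero]
    have hZθ' : ∀ z ∈ Z, θ.symm z ∈ Z := by
      rintro z ⟨hz, hz'⟩
      refine ⟨hSθ' z hz, fun x hx => ?_⟩
      have : B (θ.symm z) x = θ.symm (B z (θ x)) := by rw [hθs]; simp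
      rw [this, hz' _ (hSθ x hx), map_zero]
    set D : Submodule ℝ E := Zᗮ ⊓ S with hD
    have hDne : D ≠ ⊥ := by
      intro hD0
      apply hxy₀
      obtain ⟨z, hz, w, hw, hzw⟩ := Z.exists_add_mem_mem_orthogonal x₀
      have hwS : w ∈ S := by
        have : w = x₀ - z := by rw [hzw]; abel
        rw [this]
        exact S.sub_mem hx₀ hz.1
      have hw0 : w ∈ D := ⟨hw, hwS⟩
      rw [hD0, Submodule.mem_bot] at hw0
      rw [hzw, hw0, add_zero]
      exact hz.2 y₀ hy₀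
    have hDθ : ∀ x ∈ D, θ x ∈ D := by
      rintro x ⟨hx, hx'⟩
      refine ⟨?_, hSθ x hx'⟩
      rw [SetLike.mem_coe, Submodule.mem_orthogonal]
      intro z hz
      rw [← hiso']
      exact (Submodule.mem_orthogonal Z x).1 hx _ (hZθ' z hz)
    have hDθ' : ∀ x ∈ D, θ.symm x ∈ D := by
      rintro x ⟨hx, hx'⟩
      refine ⟨?_, hSθ' x hx'⟩
      rw [SetLike.mem_coe, Submodule.mem_orthogonal]
      intro z hz
      rw [← hiso'']
      exact (Submodule.mem_orthogonal Z x).1 hx _ (hZθ z hz)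
    -- eigenvector
    obtain ⟨a, haD, ha0, c, hac⟩ : ∃ a ∈ D, a ≠ 0 ∧ ∃ c : ℝ, θ a + θ.symm a = c • a := by
      let A : D →ₗ[ℝ] D :=
        (θ.toLinearMap.restrict hDθ) + (θ.symm.toLinearMap.restrict hDθ')
      have hA : ∀ x : D, ((A x : D) : E) = θ x + θ.symm x := fun _ => rfl
      have hsymm : A.IsSymmetric := by
        intro x y
        rw [Submodule.coe_inner, Submodule.coe_inner, hA, hA, inner_add_left, inner_add_right,
          hiso', hiso'', add_comm]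
      have : Nontrivial D := Submodule.nontrivial_iff_ne_bot.2 hDne
      obtain ⟨μ, hev⟩ : ∃ μ : ℝ, End.HasEigenvalue A μ :=
        ⟨_, hsymm.hasEigenvalue_iSup_of_finiteDimensional⟩
      obtain ⟨v, hv⟩ := hev.exists_hasEigenvector
      refine ⟨v, v.2, ?_, μ, ?_⟩
      · intro h0
        exact hv.2 (Subtype.ext h0)
      · rw [← hA, hv.apply_eq_smul]
        rfl
    have haS : a ∈ S := haD.2
    have hθa : θ a ∈ S := hSθ a haS
    have hac2 : θ (θ a) = c • θ a - a := by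
      have := congrArg θ hac
      rw [map_add, θ.apply_symm_apply, map_smul] at this
      rw [← this]; abel
    have hBself : ∀ x, B x x = 0 := by
      intro x
      have h1 := hsk x x
      have h2 : (2 : ℝ) • B x x = 0 := by
        rw [two_smul]
        nth_rewrite 1 [h1]
        rw [neg_add_cancel]
      exact (smul_eq_zero.1 h2).resolve_left two_ne_zero
    have haZ : a ∉ Z := by
      intro haZ
      have h1 := (Submodule.mem_orthogonal Z a).1 haD.1 a haZ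
      exact ha0 (inner_self_eq_zero.1 h1)
    by_cases hw : B a (θ a) = 0
    · refine stepV B θ S hsk hjac hSB hSθ hSθ' n hn
        (fun S' h1 h2 => ih S' h1 (h2.trans hS₀)) {a, θ a} ?_ ?_ ?_ ?_ ?_
      · rintro v (rfl | rfl)
        · exact haS
        · exact hθa
      · rintro v (rfl | rfl) w (rfl | rfl)
        · exact hBself _
        · exact hw
        · rw [hsk, hw, neg_zero]
        · exact hBself _
      · refine ⟨a, Or.inl rfl, ?_⟩
        by_contra hcon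
        push Not at hcon
        apply haZ
        refine ⟨haS, fun x hx => ?_⟩
        rw [hsk, hcon x hx, neg_zero]
      · intro x hx hxV
        have h1 : B x a = 0 := hxV a (Or.inl rfl)
        have h2 : B x (θ a) = 0 := hxV (θ a) (Or.inr rfl)
        rintro v (rfl | rfl)
        · have h3 : v = c • θ v - θ (θ v) := by rw [hac2]; abel
          have h4 : B (θ x) v = c • θ (B x v) - θ (B x (θ v)) := by
            conv_lhs => rw [h3]
            rw [map_sub, map_smul, hθ, hθ]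
          rw [h4, h1, h2, map_zero, smul_zero, sub_zero]
        · rw [← hθ, h1, map_zero]
      · intro x hx hxV
        have h1 : B x a = 0 := hxV a (Or.inl rfl)
        have h2 : B x (θ a) = 0 := hxV (θ a) (Or.inr rfl)
        rintro v (rfl | rfl)
        · have h4 : B (θ.symm x) v = θ.symm (B x (θ v)) := by rw [hθs]; simp
          rw [h4, h2, map_zero]
        · have h4 : B (θ.symm x) (θ a) = θ.symm (B x (θ (θ a))) := by rw [hθs]; simp
          rw [h4, hac2, map_sub, map_smul, h1, h2, smul_zero, sub_zero, map_zero]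
    · set w := B a (θ a) with hwdef
      have hwθ : θ w = w := by
        rw [hwdef, hθ, hac2, map_sub, map_smul, hBself, smul_zero, zero_sub, ← hsk]
      have hwθ' : θ.symm w = w := by
        conv_lhs => rw [← hwθ]
        simp
      have hwS : w ∈ S := hSB a haS (θ a) hθa
      refine stepV B θ S hsk hjac hSB hSθ hSθ' n hn
        (fun S' h1 h2 => ih S' h1 (h2.trans hS₀)) {w} ?_ ?_ ?_ ?_ ?_
      · rintro v rfl
        exact hwS
      · rintro v rfl v' rfl
        exact hBself _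
      · refine ⟨w, rfl, a, haS, ?_⟩
        intro h0
        apply hw
        have h1 := hinv a (hS₀ haS) (θ a) w
        rw [h0, inner_zero_right, neg_zero, ← hwdef] at h1
        exact inner_self_eq_zero.1 h1
      · rintro x hx hxV v rfl
        have h1 := hxV w rfl
        have h2 : B (θ x) w = θ (B x w) := by rw [hθ, hwθ]
        rw [h2, h1, map_zero]
      · rintro x hx hxV v rfl
        have h1 := hxV w rfl
        have h2 : B (θ.symm x) w = θ.symm (B x w) := by rw [hθs, hwθ']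
        rw [h2, h1, map_zero]

end Abs

end Pool.Agent.H357R3
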