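import Pool.Agent.H357R3.Mat

set_option autoImplicit false

namespace Pool.Agent.H357R3

open Module Matrix Pool.LatH472 Filter Topology

variable {ι : Type} [Fintype ι] [DecidableEq ι]

/-- derivative of `exp (tX) Y exp (-tX)` at `0`, Banach algebra form -/
theorem adj_gen {𝔸 : Type*} [NormedRing 𝔸] [NormedAlgebra ℝ 𝔸] [CompleteSpace 𝔸] (X Y : 𝔸) :
    Tendsto (fun t : ℝ => t⁻¹ • (NormedSpace.exp (t • X) * Y * NormedSpace.exp (t • (-X)) - Y))
      (𝓝[≠] 0) (𝓝 (X * Y - Y * X)) := by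
  have d1 := hasDerivAt_exp_smul_const (𝕂 := ℝ) X 0
  have d2 := hasDerivAt_exp_smul_const (𝕂 := ℝ) (-X) 0
  have d := (d1.mul_const Y).mul d2
  have h := d.tendsto_slope_zero
  have e : X * Y - Y * X = X * Y + Y * -X := by noncomm_ring
  simp only [zero_smul, NormedSpace.exp_zero, one_mul, mul_one, zero_add] at h
  rw [e]
  refine h.congr fun t => ?_
  simp only [Pi.mul_apply, zero_smul, NormedSpace.exp_zero, one_mul, mul_one]

set_option backward.isDefEq.respectTransparency false in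
theorem adj_mat (X Y : Matrix ι ι ℂ) :
    Tendsto (fun t : ℝ => t⁻¹ • (NormedSpace.exp (t • X) * Y * NormedSpace.exp (t • (-X)) - Y))
      (𝓝[≠] 0) (𝓝 (X * Y - Y * X)) :=
  open scoped Matrix.Norms.L2Operator in adj_gen X Y

/-- the Lie algebra as a real subspace -/
noncomputable def lie (L : Subgroup (Matrix.unitaryGroup ι ℂ))
    (hL : IsClosed (L : Set (Matrix.unitaryGroup ι ℂ))) : Submodule ℝ (Matrix ι ι ℂ) where
  carrier := LieAlg L
  add_mem' := fun {X Y} hX hY => CST1_add L hL X Y hX hY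
  zero_mem' := by
    refine ⟨by simp, fun t => ⟨1, L.one_mem, ?_⟩⟩
    rw [smul_zero, NormedSpace.exp_zero]; rfl
  smul_mem' := by
    rintro c X ⟨hX1, hX2⟩
    refine ⟨CST1_skew c X hX1, fun t => ?_⟩
    obtain ⟨u, hu, hu2⟩ := hX2 (t * c)
    exact ⟨u, hu, by rw [hu2, smul_smul]⟩

variable (L : Subgroup (Matrix.unitaryGroup ι ℂ))
  (hL : IsClosed (L : Set (Matrix.unitaryGroup ι ℂ)))

theorem lie_skew (X : Matrix ι ι ℂ) (hX : X ∈ lie L hL) : Xᴴ = -X := hX.1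

theorem lie_cj (X : Matrix ι ι ℂ) (hX : X ∈ lie L hL) (g : Matrix.unitaryGroup ι ℂ) (hg : g ∈ L) :
    cj g X ∈ lie L hL := by
  obtain ⟨hX1, hX2⟩ := hX
  refine ⟨?_, fun t => ?_⟩
  · rw [cj_apply, Matrix.star_eq_conjTranspose, Matrix.conjTranspose_mul,
      Matrix.conjTranspose_mul, Matrix.conjTranspose_conjTranspose, hX1, Matrix.neg_mul,
      Matrix.mul_neg, Matrix.mul_assoc]
  · obtain ⟨u, hu, hu2⟩ := hX2 t
    refine ⟨g * u * g⁻¹, L.mul_mem (L.mul_mem hg hu) (L.inv_mem hg), ?_⟩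
    have h1 : star (g : Matrix ι ι ℂ) = (g : Matrix ι ι ℂ)⁻¹ := by
      symm
      apply Matrix.inv_eq_left_inv
      exact Unitary.coe_star_mul_self g
    have h2 : IsUnit (g : Matrix ι ι ℂ) :=
      IsUnit.of_mul_eq_one _ (Unitary.coe_mul_star_self g)
    rw [← map_smul, cj_apply, h1, Matrix.exp_conj _ _ h2, ← hu2, ← h1]
    simp

theorem lie_brk (X Y : Matrix ι ι ℂ) (hX : X ∈ lie L hL) (hY : Y ∈ lie L hL) :
    brk ι X Y ∈ lie L hL := by
  rw [brk_apply]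
  have hcl : IsClosed ((lie L hL : Submodule ℝ (Matrix ι ι ℂ)) : Set (Matrix ι ι ℂ)) :=
    Submodule.closed_of_finiteDimensional _
  refine hcl.mem_of_tendsto (adj_mat X Y) (Eventually.of_forall fun t => ?_)
  refine Submodule.smul_mem _ _ (Submodule.sub_mem _ ?_ hY)
  obtain ⟨u, hu, hu2⟩ := hX.2 t
  have h3 : NormedSpace.exp (t • (-X)) = star (u : Matrix ι ι ℂ) := by
    rw [hu2, Matrix.star_eq_conjTranspose, ← Matrix.exp_conjTranspose, Matrix.conjTranspose_smul,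
      hX.1, star_trivial]
  rw [h3, ← hu2]
  exact lie_cj L hL Y hY u hu

/-- Hunt's argument -/
theorem hunt (hc : IsCompact (L : Set (Matrix.unitaryGroup ι ℂ)))
    (X Y : Matrix ι ι ℂ) (hX : X ∈ lie L hL) (hY : Y ∈ lie L hL) :
    ∃ h ∈ L, cj h X * Y = Y * cj h X := by
  let φ : Matrix ι ι ℂ → ℝ := fun W => (Wᴴ * Y).trace.re
  have hφ : Continuous φ := by
    apply Complex.continuous_re.comp
    fun_prop
  have hcont : Continuous (fun h : Matrix.unitaryGroup ι ℂ => φ (cj h X)) := by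
    apply hφ.comp
    simp only [cj_apply]
    fun_prop
  obtain ⟨h₀, hh₀, hmin⟩ := hc.exists_isMinOn ⟨1, L.one_mem⟩ hcont.continuousOn
  refine ⟨h₀, hh₀, ?_⟩
  set X' := cj h₀ X with hX'
  have hX'L : X' ∈ lie L hL := lie_cj L hL X hX h₀ hh₀
  have key : ∀ Z ∈ lie L hL, φ (brk ι Z X') = 0 := by
    intro Z hZ
    have ht := (hφ.tendsto _).comp (adj_mat Z X')
    rw [← brk_apply] at ht
    have hform : ∀ t : ℝ, φ (t⁻¹ • (NormedSpace.exp (t • Z) * X' * NormedSpace.exp (t • (-Z)) - X'))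
        = t⁻¹ * (φ (NormedSpace.exp (t • Z) * X' * NormedSpace.exp (t • (-Z))) - φ X') := by
      intro t
      show ((t⁻¹ • _ : Matrix ι ι ℂ)ᴴ * Y).trace.re = _
      rw [Matrix.conjTranspose_smul, Matrix.smul_mul, Matrix.trace_smul, star_trivial,
        Complex.real_smul, Complex.re_ofReal_mul, Matrix.conjTranspose_sub, Matrix.sub_mul,
        Matrix.trace_sub, Complex.sub_re]
    have hge : ∀ t : ℝ, φ X' ≤ φ (NormedSpace.exp (t • Z) * X' * NormedSpace.exp (t • (-Z))) := by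
      intro t
      obtain ⟨u, hu, hu2⟩ := hZ.2 t
      have h3 : NormedSpace.exp (t • (-Z)) = star (u : Matrix ι ι ℂ) := by
        rw [hu2, Matrix.star_eq_conjTranspose, ← Matrix.exp_conjTranspose,
          Matrix.conjTranspose_smul, hZ.1, star_trivial]
      rw [h3, ← hu2]
      have h4 : (u : Matrix ι ι ℂ) * X' * star (u : Matrix ι ι ℂ) = cj (u * h₀) X := by
        rw [cj_mul]; rfl
      rw [h4]
      exact hmin (L.mul_mem hu hh₀)
    have hgt : Tendsto (fun t : ℝ => t⁻¹ *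
        (φ (NormedSpace.exp (t • Z) * X' * NormedSpace.exp (t • (-Z))) - φ X')) (𝓝[≠] 0)
        (𝓝 (φ (brk ι Z X'))) := ht.congr fun t => hform t
    apply le_antisymm
    · have h1 : Tendsto (fun t : ℝ => t⁻¹ *
        (φ (NormedSpace.exp (t • Z) * X' * NormedSpace.exp (t • (-Z))) - φ X')) (𝓝[<] 0)
        (𝓝 (φ (brk ι Z X'))) := hgt.mono_left (nhdsWithin_mono _ fun x hx => ne_of_lt hx)
      refine le_of_tendsto h1 ?_
      filter_upwards [self_mem_nhdsWithin] with t ht0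
      have : t⁻¹ ≤ 0 := inv_nonpos.2 (le_of_lt ht0)
      exact mul_nonpos_of_nonpos_of_nonneg this (sub_nonneg.2 (hge t))
    · have h1 : Tendsto (fun t : ℝ => t⁻¹ *
        (φ (NormedSpace.exp (t • Z) * X' * NormedSpace.exp (t • (-Z))) - φ X')) (𝓝[>] 0)
        (𝓝 (φ (brk ι Z X'))) := hgt.mono_left (nhdsWithin_mono _ fun x hx => ne_of_gt hx)
      refine ge_of_tendsto h1 ?_
      filter_upwards [self_mem_nhdsWithin] with t ht0
      have : 0 ≤ t⁻¹ := inv_nonneg.2 (le_of_lt ht0)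
      exact mul_nonneg this (sub_nonneg.2 (hge t))
  have hZ := key (brk ι X' Y) (lie_brk L hL X' Y hX'L hY)
  -- `ip (brk Z X') Y = 0` with `Z = brk X' Y`
  have h1 : ((brk ι (brk ι X' Y) X')ᴴ * Y).trace.re = 0 := hZ
  rw [brk_skew, Matrix.conjTranspose_neg, Matrix.neg_mul, Matrix.trace_neg, Complex.neg_re,
    ip_inv X' (lie_skew L hL X' hX'L), neg_neg] at h1
  have h2 := (mcore ι).definite (brk ι X' Y) h1
  exact (brk_zero_iff _ _).1 h2

/-- conjugacy of maximal abelian subspaces -/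
theorem conj_max (hc : IsCompact (L : Set (Matrix.unitaryGroup ι ℂ)))
    (T₁ T₂ : Submodule ℝ (Matrix ι ι ℂ)) (h₁ : MaxAb (lie L hL) T₁)
    (h₂ : MaxAb (lie L hL) T₂) : ∃ h ∈ L, (∀ X ∈ T₁, cj h X ∈ T₂) ∧ (∀ X ∈ T₂, cj h⁻¹ X ∈ T₁) := by
  obtain ⟨X, hX, hXr⟩ := regular_mat (lie L hL) (lie_skew L hL) T₁ h₁
  obtain ⟨Y, hY, hYr⟩ := regular_mat (lie L hL) (lie_skew L hL) T₂ h₂
  obtain ⟨h, hh, hcomm⟩ := hunt L hL hc X Y (h₁.1 hX) (h₂.1 hY)
  have hXT₂ : cj h X ∈ T₂ := hYr _ (lie_cj L hL X (h₁.1 hX) h hh) hcomm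
  have hback : ∀ W ∈ T₂, cj h⁻¹ W ∈ T₁ := by
    intro W hW
    apply hXr _ (lie_cj L hL W (h₂.1 hW) h⁻¹ (L.inv_mem hh))
    have := h₂.2.1 W hW _ hXT₂
    have h3 := congrArg (cj h⁻¹) this
    rw [cj_prod, cj_prod, cj_inv_cj] at h3
    exact h3
  refine ⟨h, hh, ?_, hback⟩
  intro W hW
  apply h₂.2.2 _ (lie_cj L hL W (h₁.1 hW) h hh)
  intro V hV
  have h3 := congrArg (cj h) (h₁.2.1 W hW _ (hback V hV))
  rw [cj_prod, cj_prod, cj_cj_inv] at h3
  exact h3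

/-- there is a closed condition stabilising a maximal abelian subspace, met by every conjugacy
class -/
theorem exists_norm (hc : IsCompact (L : Set (Matrix.unitaryGroup ι ℂ))) : ∃ T, MaxAb (lie L hL) T ∧ ∀ g ∈ L, ∃ h ∈ L,
    (∀ X ∈ T, cj (h * g * h⁻¹) X ∈ T) ∧ (∀ X ∈ T, cj (h * g * h⁻¹)⁻¹ X ∈ T) := by
  have hst : ∀ g ∈ L, ∃ T, MaxAb (lie L hL) T ∧ (∀ X ∈ T, cj g X ∈ T) ∧
      (∀ X ∈ T, cj g⁻¹ X ∈ T) := fun g hg =>
    stable_mat (lie L hL) (lie_skew L hL) (fun X hX Y hY => lie_brk L hL X Y hX hY) g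
      (fun X hX => lie_cj L hL X hX g hg) (fun X hX => lie_cj L hL X hX g⁻¹ (L.inv_mem hg))
  obtain ⟨T, hT, -⟩ := hst 1 L.one_mem
  refine ⟨T, hT, fun g hg => ?_⟩
  obtain ⟨T', hT', hg1, hg2⟩ := hst g hg
  obtain ⟨h, hh, h1, h2⟩ := conj_max L hL hc T' T hT' hT
  refine ⟨h, hh, fun X hX => ?_, fun X hX => ?_⟩
  · rw [cj_mul, cj_mul]
    exact h1 _ (hg1 _ (h2 _ hX))
  · rw [_root_.mul_inv_rev, _root_.mul_inv_rev, inv_inv, cj_mul, cj_mul]
    exact h1 _ (hg2 _ (h2 _ hX))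

end Pool.Agent.H357R3
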