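import Pool.Agent.H357R3.Reg
import Pool.Agent.Helper472.Lat_CST1
import Pool.Agent.Helper472.Lat_CST2

set_option autoImplicit false

namespace Pool.Agent.H357R3

open Module Matrix

variable {ι : Type} [Fintype ι] [DecidableEq ι]

/-- the real inner product `Re tr(X* Y)` on complex matrices -/
noncomputable def mcore (ι : Type) [Fintype ι] : InnerProductSpace.Core ℝ (Matrix ι ι ℂ) where
  inner X Y := (Matrix.trace (Xᴴ * Y)).re
  conj_inner_symm X Y := by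
    have h : (Xᴴ * Y).trace = star ((Yᴴ * X).trace) := by
      rw [← Matrix.trace_conjTranspose, Matrix.conjTranspose_mul, Matrix.conjTranspose_conjTranspose]
    show star ((Yᴴ * X).trace).re = ((Xᴴ * Y).trace).re
    rw [h]
    simp
  re_inner_nonneg X := by
    show 0 ≤ RCLike.re ((Xᴴ * X).trace).re
    have h : ((Xᴴ * X).trace).re = ∑ i, ∑ j, ‖X j i‖ ^ 2 := by
      simp only [Matrix.trace, Matrix.diag_apply, Matrix.mul_apply, Matrix.conjTranspose_apply,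
        Complex.re_sum]
      refine Finset.sum_congr rfl fun i _ => Finset.sum_congr rfl fun j _ => ?_
      have : star (X j i) * X j i = ((‖X j i‖ ^ 2 : ℝ) : ℂ) := by
        push_cast
        exact Complex.conj_mul' _
      rw [this, Complex.ofReal_re]
    rw [h]
    simp only [RCLike.re_to_real]
    positivity
  add_left X Y Z := by
    show ((X + Y)ᴴ * Z).trace.re = (Xᴴ * Z).trace.re + (Yᴴ * Z).trace.re
    rw [Matrix.conjTranspose_add, Matrix.add_mul, Matrix.trace_add, Complex.add_re]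
  smul_left X Y r := by
    show ((r • X)ᴴ * Y).trace.re = r * (Xᴴ * Y).trace.re
    rw [Matrix.conjTranspose_smul, Matrix.smul_mul, Matrix.trace_smul, star_trivial,
      Complex.real_smul, Complex.re_ofReal_mul]
  definite X h := by
    have h' : ((Xᴴ * X).trace).re = 0 := h
    have h2 : ((Xᴴ * X).trace).re = ∑ i, ∑ j, ‖X j i‖ ^ 2 := by
      simp only [Matrix.trace, Matrix.diag_apply, Matrix.mul_apply, Matrix.conjTranspose_apply,
        Complex.re_sum]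
      refine Finset.sum_congr rfl fun i _ => Finset.sum_congr rfl fun j _ => ?_
      have : star (X j i) * X j i = ((‖X j i‖ ^ 2 : ℝ) : ℂ) := by
        push_cast
        exact Complex.conj_mul' _
      rw [this, Complex.ofReal_re]
    rw [h2] at h'
    ext i j
    have h3 := (Finset.sum_eq_zero_iff_of_nonneg (fun i _ => by positivity)).1 h' j (Finset.mem_univ _)
    have h4 := (Finset.sum_eq_zero_iff_of_nonneg (fun i _ => by positivity)).1 h3 i (Finset.mem_univ _)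
    have h5 : ‖X i j‖ = 0 := by simpa using h4
    simpa using h5

/-- the commutator as a bilinear map -/
noncomputable def brk (ι : Type) [Fintype ι] [DecidableEq ι] :
    Matrix ι ι ℂ →ₗ[ℝ] Matrix ι ι ℂ →ₗ[ℝ] Matrix ι ι ℂ :=
  LinearMap.mul ℝ (Matrix ι ι ℂ) - (LinearMap.mul ℝ (Matrix ι ι ℂ)).flip

theorem brk_apply (X Y : Matrix ι ι ℂ) : brk ι X Y = X * Y - Y * X := by
  simp [brk]

theorem brk_zero_iff (X Y : Matrix ι ι ℂ) : brk ι X Y = 0 ↔ X * Y = Y * X := by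
  rw [brk_apply, sub_eq_zero]

theorem brk_skew (X Y : Matrix ι ι ℂ) : brk ι X Y = - brk ι Y X := by
  rw [brk_apply, brk_apply]; abel

theorem brk_jac (X Y Z : Matrix ι ι ℂ) :
    brk ι X (brk ι Y Z) = brk ι (brk ι X Y) Z + brk ι Y (brk ι X Z) := by
  simp only [brk_apply]; noncomm_ring

theorem ip_inv (X : Matrix ι ι ℂ) (hX : Xᴴ = -X) (Y Z : Matrix ι ι ℂ) :
    ((brk ι X Y)ᴴ * Z).trace.re = - (Yᴴ * brk ι X Z).trace.re := by
  rw [brk_apply, brk_apply, Matrix.conjTranspose_sub, Matrix.conjTranspose_mul,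
    Matrix.conjTranspose_mul, hX, ← Complex.neg_re, ← Matrix.trace_neg]
  congr 1
  rw [Matrix.sub_mul, Matrix.mul_sub, Matrix.trace_sub, Matrix.trace_neg, Matrix.trace_sub]
  have h1 : (-X * Yᴴ * Z).trace = -(Yᴴ * (Z * X)).trace := by
    rw [Matrix.neg_mul, Matrix.neg_mul, Matrix.trace_neg, Matrix.mul_assoc, Matrix.trace_mul_comm,
      Matrix.mul_assoc]
  have h2 : (Yᴴ * -X * Z).trace = -(Yᴴ * (X * Z)).trace := by
    rw [Matrix.mul_neg, Matrix.neg_mul, Matrix.trace_neg, Matrix.mul_assoc]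
  rw [h1, h2]
  ring

/-- conjugation by a unitary matrix -/
noncomputable def cj (g : Matrix.unitaryGroup ι ℂ) : Matrix ι ι ℂ ≃ₗ[ℝ] Matrix ι ι ℂ where
  toFun X := (g : Matrix ι ι ℂ) * X * star (g : Matrix ι ι ℂ)
  map_add' X Y := by rw [Matrix.mul_add, Matrix.add_mul]
  map_smul' r X := by
    rw [RingHom.id_apply, Matrix.mul_smul, Matrix.smul_mul]
  invFun X := star (g : Matrix ι ι ℂ) * X * (g : Matrix ι ι ℂ)
  left_inv X := by
    have h : star (g : Matrix ι ι ℂ) * (g : Matrix ι ι ℂ) = 1 := Unitary.coe_star_mul_self g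
    calc _ = (star (g : Matrix ι ι ℂ) * (g : Matrix ι ι ℂ)) * X *
        (star (g : Matrix ι ι ℂ) * (g : Matrix ι ι ℂ)) := by simp only [Matrix.mul_assoc]
      _ = X := by rw [h, Matrix.one_mul, Matrix.mul_one]
  right_inv X := by
    have h : (g : Matrix ι ι ℂ) * star (g : Matrix ι ι ℂ) = 1 := Unitary.coe_mul_star_self g
    calc _ = ((g : Matrix ι ι ℂ) * star (g : Matrix ι ι ℂ)) * X *
        ((g : Matrix ι ι ℂ) * star (g : Matrix ι ι ℂ)) := by simp only [Matrix.mul_assoc]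
      _ = X := by rw [h, Matrix.one_mul, Matrix.mul_one]

theorem cj_apply (g : Matrix.unitaryGroup ι ℂ) (X : Matrix ι ι ℂ) :
    cj g X = (g : Matrix ι ι ℂ) * X * star (g : Matrix ι ι ℂ) := rfl

theorem cj_symm (g : Matrix.unitaryGroup ι ℂ) (X : Matrix ι ι ℂ) :
    (cj g).symm X = cj g⁻¹ X := by
  rw [cj_apply]
  show star (g : Matrix ι ι ℂ) * X * (g : Matrix ι ι ℂ) = _
  simp

theorem cj_mul (g h : Matrix.unitaryGroup ι ℂ) (X : Matrix ι ι ℂ) :
    cj (g * h) X = cj g (cj h X) := by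
  rw [cj_apply, cj_apply, cj_apply]
  simp [Matrix.mul_assoc]

theorem cj_one (X : Matrix ι ι ℂ) : cj (1 : Matrix.unitaryGroup ι ℂ) X = X := by
  rw [cj_apply]; simp

theorem cj_inv_cj (g : Matrix.unitaryGroup ι ℂ) (X : Matrix ι ι ℂ) : cj g⁻¹ (cj g X) = X := by
  rw [← cj_mul, inv_mul_cancel, cj_one]

theorem cj_cj_inv (g : Matrix.unitaryGroup ι ℂ) (X : Matrix ι ι ℂ) : cj g (cj g⁻¹ X) = X := by
  rw [← cj_mul, mul_inv_cancel, cj_one]

theorem cj_prod (g : Matrix.unitaryGroup ι ℂ) (X Y : Matrix ι ι ℂ) :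
    cj g (X * Y) = cj g X * cj g Y := by
  have h : star (g : Matrix ι ι ℂ) * (g : Matrix ι ι ℂ) = 1 := Unitary.coe_star_mul_self g
  rw [cj_apply, cj_apply, cj_apply]
  calc _ = (g : Matrix ι ι ℂ) * X * 1 * Y * star (g : Matrix ι ι ℂ) := by
        simp only [Matrix.mul_assoc, Matrix.mul_one, Matrix.one_mul]
    _ = _ := by rw [← h]; simp only [Matrix.mul_assoc]

theorem cj_brk (g : Matrix.unitaryGroup ι ℂ) (X Y : Matrix ι ι ℂ) :
    cj g (brk ι X Y) = brk ι (cj g X) (cj g Y) := by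
  rw [brk_apply, brk_apply, map_sub, cj_prod, cj_prod]

theorem cj_ip (g : Matrix.unitaryGroup ι ℂ) (X Y : Matrix ι ι ℂ) :
    ((cj g X)ᴴ * cj g Y).trace.re = (Xᴴ * Y).trace.re := by
  have e : (cj g X)ᴴ = cj g Xᴴ := by
    rw [cj_apply, cj_apply, Matrix.star_eq_conjTranspose, Matrix.conjTranspose_mul,
      Matrix.conjTranspose_mul, Matrix.conjTranspose_conjTranspose, Matrix.mul_assoc]
  have h : star (g : Matrix ι ι ℂ) * (g : Matrix ι ι ℂ) = 1 := Unitary.coe_star_mul_self g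
  rw [e, ← cj_prod, cj_apply, Matrix.trace_mul_comm, ← Matrix.mul_assoc, h, Matrix.one_mul]

/-- maximal abelian subspace of `S` -/
def MaxAb (S T : Submodule ℝ (Matrix ι ι ℂ)) : Prop :=
  T ≤ S ∧ (∀ X ∈ T, ∀ Y ∈ T, X * Y = Y * X) ∧ ∀ X ∈ S, (∀ Y ∈ T, X * Y = Y * X) → X ∈ T

theorem stable_mat (S : Submodule ℝ (Matrix ι ι ℂ)) (hS : ∀ X ∈ S, Xᴴ = -X)
    (hSB : ∀ X ∈ S, ∀ Y ∈ S, brk ι X Y ∈ S) (g : Matrix.unitaryGroup ι ℂ)
    (hg : ∀ X ∈ S, cj g X ∈ S) (hg' : ∀ X ∈ S, cj g⁻¹ X ∈ S) :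
    ∃ T, MaxAb S T ∧ (∀ X ∈ T, cj g X ∈ T) ∧ (∀ X ∈ T, cj g⁻¹ X ∈ T) := by
  letI i1 : NormedAddCommGroup (Matrix ι ι ℂ) := (mcore ι).toNormedAddCommGroup
  letI i2 : InnerProductSpace ℝ (Matrix ι ι ℂ) := InnerProductSpace.ofCore (mcore ι).toCore
  have hip : ∀ X Y : Matrix ι ι ℂ, inner ℝ X Y = (Xᴴ * Y).trace.re := fun _ _ => rfl
  obtain ⟨T, hTS, hTab, ⟨hT1, hT2⟩, hTm⟩ := stable (brk ι) S brk_skew brk_jac
    (fun X hX Y Z => ip_inv X (hS X hX) Y Z) (cj g) (fun X Y => cj_ip g X Y)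
    (fun X Y => cj_brk g X Y) (finrank ℝ S) S le_rfl le_rfl hSB hg
    (fun X hX => by rw [cj_symm]; exact hg' X hX)
  refine ⟨T, ⟨hTS, fun X hX Y hY => (brk_zero_iff X Y).1 (hTab X hX Y hY), ?_⟩, hT1, ?_⟩
  · intro X hX h
    exact hTm X hX fun Y hY => (brk_zero_iff X Y).2 (h Y hY)
  · intro X hX
    rw [← cj_symm]
    exact hT2 X hX

theorem regular_mat (S : Submodule ℝ (Matrix ι ι ℂ)) (hS : ∀ X ∈ S, Xᴴ = -X)
    (T : Submodule ℝ (Matrix ι ι ℂ)) (hT : MaxAb S T) :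
    ∃ X ∈ T, ∀ Y ∈ S, Y * X = X * Y → Y ∈ T := by
  letI i1 : NormedAddCommGroup (Matrix ι ι ℂ) := (mcore ι).toNormedAddCommGroup
  letI i2 : InnerProductSpace ℝ (Matrix ι ι ℂ) := InnerProductSpace.ofCore (mcore ι).toCore
  obtain ⟨X, hX, h⟩ := regular (brk ι) S brk_skew brk_jac
    (fun X hX Y Z => ip_inv X (hS X hX) Y Z) T hT.1
    (fun X hX Y hY => (brk_zero_iff X Y).2 (hT.2.1 X hX Y hY))
    (fun X hX h => hT.2.2 X hX fun Y hY => (brk_zero_iff X Y).1 (h Y hY))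
  exact ⟨X, hX, fun Y hY hYX => h Y hY ((brk_zero_iff Y X).2 hYX)⟩

end Pool.Agent.H357R3
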