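import Pool.Agent.H862R3.Prim.Stmts

/-!
# Project PRIMVAR, task N2: the minimal non-abelian groups in a primitive variety are centreless
-/

set_option autoImplicit false

namespace Pool.Agent.H357R3.PVN2

open Pool.Agent.H862R3.Prim
open scoped commutatorElement

lemma sep (W : Set (FreeGroup ℕ)) (hW : Primitive W) (H : Type) [Group H] (hH : Laws W H)
    (L : Type) [Group L] [Finite L] (s : H × H →* L) (hs : Function.Surjective s) (c : L)
    (hc : ∀ F : L →* H, F c = 1) : c = 1 := by
  classical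
  obtain ⟨i, hi⟩ : ∃ i : L → ℕ, Function.Injective i := by
    obtain ⟨n, ⟨e⟩⟩ := Finite.exists_equiv_fin L
    exact ⟨fun a => (e a : ℕ), fun a b h => e.injective (Fin.ext h)⟩
  have : Fintype L := Fintype.ofFinite L
  obtain ⟨P, hP⟩ : ∃ P : List (FreeGroup ℕ), ∀ u, u ∈ P ↔ ∃ a b : L,
      u = FreeGroup.of (i a) * FreeGroup.of (i b) * (FreeGroup.of (i (a * b)))⁻¹ := by
    refine ⟨(Finset.univ : Finset (L × L)).toList.map
      (fun ab => FreeGroup.of (i ab.1) * FreeGroup.of (i ab.2) *
        (FreeGroup.of (i (ab.1 * ab.2)))⁻¹), fun u => ?_⟩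
    simp only [List.mem_map, Finset.mem_toList, Finset.mem_univ, true_and, Prod.exists]
    constructor
    · rintro ⟨a, b, h⟩; exact ⟨a, b, h.symm⟩
    · rintro ⟨a, b, h⟩; exact ⟨a, b, h.symm⟩
  have hP' : ∀ (G : Type) [Group G] (f : ℕ → G),
      (∀ u ∈ P, FreeGroup.lift f u = 1) ↔ ∀ a b : L, f (i a) * f (i b) = f (i (a * b)) := by
    intro G _ f
    constructor
    · intro h a b
      have := h _ ((hP _).2 ⟨a, b, rfl⟩)
      simp only [map_mul, map_inv, FreeGroup.lift_apply_of] at this
      exact mul_inv_eq_one.1 this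
    · intro h u hu
      obtain ⟨a, b, rfl⟩ := (hP u).1 hu
      simp only [map_mul, map_inv, FreeGroup.lift_apply_of]
      exact mul_inv_eq_one.2 (h a b)
  have hqH : QI.Holds ⟨P, FreeGroup.of (i c)⟩ H := by
    intro f hf
    have h := (hP' H f).1 hf
    let F : L →* H := MonoidHom.mk' (fun a => f (i a)) (fun a b => (h a b).symm)
    have := hc F
    show FreeGroup.lift f (FreeGroup.of (i c)) = 1
    rw [FreeGroup.lift_apply_of]
    exact this
  have hprod : ∀ q : QI, q.Holds H → q.Holds (H × H) := by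
    intro q hq f hf
    have e : ∀ (g : H × H →* H) (u : FreeGroup ℕ),
        FreeGroup.lift (fun k => g (f k)) u = g (FreeGroup.lift f u) := by
      intro g u
      have : (FreeGroup.lift fun k => g (f k)) = g.comp (FreeGroup.lift f) := by
        ext k
        simp
      rw [this]; rfl
    have h1 := hq (fun k => MonoidHom.fst H H (f k)) (fun u hu => by rw [e, hf u hu, map_one])
    have h2 := hq (fun k => MonoidHom.snd H H (f k)) (fun u hu => by rw [e, hf u hu, map_one])
    rw [e] at h1 h2
    exact Prod.ext h1 h2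
  let Φ : Set QI := {r | r = ⟨P, FreeGroup.of (i c)⟩ ∨ ∃ w ∈ W, r = ⟨[], w⟩}
  have hΦ : ∀ (G : Type) [Group G], Quasi Φ G → Laws W G := by
    intro G _ h w hw f
    exact h ⟨[], w⟩ (Or.inr ⟨w, hw, rfl⟩) f (fun u hu => by simp at hu)
  have hΦH : ∀ q ∈ Φ, q.Holds H := by
    rintro q (rfl | ⟨w, hw, rfl⟩)
    · exact hqH
    · intro f _
      exact hH w hw f
  have hΦ2 : Quasi Φ (H × H) := fun q hq => hprod q (hΦH q hq)
  have hL : Quasi Φ L := hW Φ hΦ (H × H) L s hs hΦ2
  have h := hL ⟨P, FreeGroup.of (i c)⟩ (Or.inl rfl) (Function.extend i id 1)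
    ((hP' L _).2 fun a b => by
      rw [hi.extend_apply, hi.extend_apply, hi.extend_apply]; rfl)
  rw [FreeGroup.lift_apply_of, hi.extend_apply] at h
  exact h

/-- if the image of a homomorphism into a minimal non-abelian group has noncommuting elements,
then the homomorphism is surjective -/
lemma surj {H K : Type} [Group H] [Group K] (hH : MinNonab H) (F : K →* H) (x y : K)
    (h : F x * F y ≠ F y * F x) : F.range = ⊤ := by
  by_contra hne
  exact h (hH.2 F.range hne (F x) ⟨x, rfl⟩ (F y) ⟨y, rfl⟩)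

theorem taskN2 : Pool.Agent.H862R3.Prim.TaskN2 := by
  intro W hW H _ _ hH hM
  by_contra hZ
  by_cases hA : ∀ x y : H, ⁅x, y⁆ ∈ Subgroup.center H
  · -- `H / Z` is abelian
    obtain ⟨x, y, hxy⟩ : ∃ x y : H, x * y ≠ y * x := by
      have := hM.1
      push Not at this
      exact this
    let N : Subgroup (H × H) :=
      { carrier := {p | p.1 ∈ Subgroup.center H ∧ p.2 = p.1⁻¹}
        mul_mem' := by
          rintro ⟨a, b⟩ ⟨a', b'⟩ ⟨h1, h2⟩ ⟨h3, h4⟩
          refine ⟨Subgroup.mul_mem _ h1 h3, ?_⟩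
          simp only at h1 h2 h3 h4 ⊢
          rw [Prod.mk_mul_mk]
          simp only
          rw [h2, h4, mul_inv_rev]
          have := (Subgroup.mem_center_iff.1 (Subgroup.inv_mem _ h3)) (a⁻¹)
          exact this
        one_mem' := ⟨Subgroup.one_mem _, by simp⟩
        inv_mem' := by
          rintro ⟨a, b⟩ ⟨h1, h2⟩
          refine ⟨Subgroup.inv_mem _ h1, ?_⟩
          simp only at h2 ⊢
          show b⁻¹ = (a⁻¹)⁻¹
          rw [h2] }
    have hN : N.Normal := by
      refine ⟨?_⟩
      rintro ⟨a, b⟩ ⟨h1, h2⟩ ⟨g, g'⟩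
      simp only at h1 h2
      have e1 : g * a * g⁻¹ = a := by
        rw [Subgroup.mem_center_iff.1 h1 g, mul_inv_cancel_right]
      have hb : b ∈ Subgroup.center H := by rw [h2]; exact Subgroup.inv_mem _ h1
      have e2 : g' * b * g'⁻¹ = b := by
        rw [Subgroup.mem_center_iff.1 hb g', mul_inv_cancel_right]
      refine ⟨?_, ?_⟩
      · show g * a * g⁻¹ ∈ _
        rw [e1]; exact h1
      · show g' * b * g'⁻¹ = (g * a * g⁻¹)⁻¹
        rw [e1, e2, h2]
    have hcz : ⁅x, y⁆ ∈ Subgroup.center H := hA x y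
    have hc1 : ⁅x, y⁆ ≠ 1 := fun h => hxy (commutatorElement_eq_one_iff_mul_comm.1 h)
    have key := sep W hW H hH ((H × H) ⧸ N) (QuotientGroup.mk' N) (QuotientGroup.mk'_surjective N)
      (QuotientGroup.mk' N (⁅x, y⁆, 1)) (by
        intro F
        by_contra hF
        let F' : H × H →* H := F.comp (QuotientGroup.mk' N)
        have hF' : F' (⁅x, y⁆, 1) ≠ 1 := hF
        let F1 : H →* H := F'.comp (MonoidHom.inl H H)
        let F2 : H →* H := F'.comp (MonoidHom.inr H H)
        have e1 : F1 ⁅x, y⁆ ≠ 1 := hF'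
        have e2 : F1.range = ⊤ := by
          refine surj hM F1 x y fun h => e1 ?_
          rw [map_commutatorElement]
          exact commutatorElement_eq_one_iff_mul_comm.2 h
        have e3 : ∀ h h' : H, F1 h * F2 h' = F2 h' * F1 h := by
          intro h h'
          show F' (h, 1) * F' (1, h') = F' (1, h') * F' (h, 1)
          rw [← map_mul, ← map_mul]
          simp
        have e4 : ∀ h' g : H, g * F2 h' = F2 h' * g := by
          intro h' g
          obtain ⟨h, rfl⟩ : g ∈ F1.range := by rw [e2]; trivial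
          exact e3 h h'
        have e5 : F2 ⁅x, y⁆ = 1 := by
          rw [map_commutatorElement]
          exact commutatorElement_eq_one_iff_mul_comm.2 (e4 y (F2 x))
        have e6 : F' (⁅x, y⁆, 1) = F' (1, ⁅x, y⁆) := by
          show F (QuotientGroup.mk' N (⁅x, y⁆, 1)) = F (QuotientGroup.mk' N (1, ⁅x, y⁆))
          congr 1
          rw [QuotientGroup.mk'_apply, QuotientGroup.mk'_apply, QuotientGroup.eq]
          refine ⟨?_, ?_⟩
          · show ⁅x, y⁆⁻¹ * 1 ∈ _
            rw [mul_one]; exact Subgroup.inv_mem _ hcz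
          · show (1 : H)⁻¹ * ⁅x, y⁆ = (⁅x, y⁆⁻¹ * 1)⁻¹
            simp
        exact hF' (e6.trans e5))
    rw [QuotientGroup.mk'_apply, QuotientGroup.eq_one_iff] at key
    have h2 : (1 : H) = ⁅x, y⁆⁻¹ := key.2
    exact hc1 (inv_eq_one.1 h2.symm)
  · -- `H / Z` is not abelian
    push Not at hA
    obtain ⟨x, y, hxy⟩ := hA
    let Z := Subgroup.center H
    let s : H × H →* H ⧸ Z := (QuotientGroup.mk' Z).comp (MonoidHom.fst H H)
    have hs : Function.Surjective s := by
      intro l
      obtain ⟨h, rfl⟩ := QuotientGroup.mk'_surjective Z l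
      exact ⟨(h, 1), rfl⟩
    have key := sep W hW H hH (H ⧸ Z) s hs (QuotientGroup.mk' Z ⁅x, y⁆) (by
      intro F
      by_contra hF
      have h1 : F.range = ⊤ := by
        refine surj hM F (QuotientGroup.mk' Z x) (QuotientGroup.mk' Z y) fun h => hF ?_
        rw [map_commutatorElement, map_commutatorElement]
        exact commutatorElement_eq_one_iff_mul_comm.2 h
      have h2 : Function.Surjective F := MonoidHom.range_eq_top.1 h1
      have h3 : Nat.card H ≤ Nat.card (H ⧸ Z) := Nat.card_le_card_of_surjective F h2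
      have h4 := Subgroup.card_eq_card_quotient_mul_card_subgroup Z
      have h5 : 1 < Nat.card Z := by
        rcases Nat.lt_or_ge 1 (Nat.card Z) with h | h
        · exact h
        · exact absurd (Subgroup.card_le_one_iff_eq_bot Z |>.1 h) hZ
      have h6 : 0 < Nat.card (H ⧸ Z) := Nat.card_pos
      nlinarith)
    rw [QuotientGroup.mk'_apply, QuotientGroup.eq_one_iff] at key
    exact hxy key

end Pool.Agent.H357R3.PVN2
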