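import Pool.Agent.H357R3.Inv

set_option autoImplicit false

namespace Pool.Agent.H357R3

open Module

section Abs

variable {E : Type*} [NormedAddCommGroup E] [InnerProductSpace ℝ E] [FiniteDimensional ℝ E]

theorem regular (B : E →ₗ[ℝ] E →ₗ[ℝ] E) (S : Submodule ℝ E)
    (hsk : ∀ x y, B x y = - B y x)
    (hjac : ∀ x y z, B x (B y z) = B (B x y) z + B y (B x z))
    (hinv : ∀ x ∈ S, ∀ y z, inner ℝ (B x y) z = - inner ℝ y (B x z))
    (T : Submodule ℝ E) (hTS : T ≤ S) (hTab : ∀ x ∈ T, ∀ y ∈ T, B x y = 0)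
    (hTmax : ∀ x ∈ S, (∀ t ∈ T, B x t = 0) → x ∈ T) :
    ∃ X ∈ T, ∀ x ∈ S, B x X = 0 → x ∈ T := by
  classical
  have hex : ∃ n : ℕ, ∃ X ∈ T, finrank ℝ (cen B S {X}) = n := ⟨_, 0, T.zero_mem, rfl⟩
  obtain ⟨X, hXT, hX⟩ := Nat.find_spec hex
  refine ⟨X, hXT, ?_⟩
  by_contra hcon
  push Not at hcon
  obtain ⟨y, hyS, hyX, hyT⟩ := hcon
  obtain ⟨t, htT, hyt⟩ : ∃ t ∈ T, B y t ≠ 0 := by
    by_contra h
    push Not at h
    exact hyT (hTmax y hyS h)
  let f : LinearMap.range (B X) →ₗ[ℝ] E := (B X).domRestrict (LinearMap.range (B X))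
  have hf : LinearMap.ker f = ⊥ := by
    rw [LinearMap.ker_eq_bot']
    rintro ⟨u, v, rfl⟩ hu
    have hu' : B X (B X v) = 0 := hu
    apply Subtype.ext
    show B X v = 0
    have h1 := hinv X (hTS hXT) v (B X v)
    rw [hu', inner_zero_right, neg_zero] at h1
    exact inner_self_eq_zero.1 h1
  obtain ⟨K, hK, hanti⟩ := f.exists_antilipschitzWith hf
  set M := ‖(LinearMap.toContinuousLinearMap (B t))‖ with hM
  have hM0 : 0 ≤ M := norm_nonneg _
  have hMb : ∀ u, ‖B t u‖ ≤ M * ‖u‖ := fun u =>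
    (LinearMap.toContinuousLinearMap (B t)).le_opNorm u
  have hK0 : (0 : ℝ) < K := hK
  obtain ⟨ε, hε, hεs⟩ : ∃ ε : ℝ, 0 < ε ∧ K * (ε * M) < 1 := by
    refine ⟨1 / (K * M + 1), by positivity, ?_⟩
    rw [one_div, mul_comm _ M, ← mul_assoc, ← div_eq_mul_inv, div_lt_one (by positivity)]
    linarith
  have hXt : X + ε • t ∈ T := T.add_mem hXT (T.smul_mem _ htT)
  have hlt : cen B S {X + ε • t} < cen B S {X} := by
    rw [SetLike.lt_iff_le_and_exists]
    constructor
    · rintro x ⟨hxS, hx⟩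
      refine ⟨hxS, ?_⟩
      rintro v rfl
      have h1 : B x (v + ε • t) = 0 := hx _ rfl
      have h2 : B v x + ε • B t x = 0 := by
        have h3 : B (v + ε • t) x = 0 := by rw [hsk, h1, neg_zero]
        rwa [map_add, map_smul, LinearMap.add_apply, LinearMap.smul_apply] at h3
      have hcomm : B t (B v x) = B v (B t x) := by
        rw [hjac t v x, hTab t htT v hXT, map_zero, LinearMap.zero_apply, zero_add]
      have h4 : B v (B v x) + ε • B t (B v x) = 0 := by
        rw [hcomm, ← map_smul, ← map_add, h2, map_zero]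
      have h5 : ‖B v x‖ ≤ K * ‖B v (B v x)‖ := by
        have h6 := hanti.le_mul_dist ⟨B v x, ⟨x, rfl⟩⟩ 0
        rw [dist_zero_right, map_zero, dist_zero_right] at h6
        exact h6
      have h7 : ‖B v (B v x)‖ = ε * ‖B t (B v x)‖ := by
        rw [eq_neg_of_add_eq_zero_left h4, norm_neg, norm_smul, Real.norm_of_nonneg hε.le]
      have h8 : ‖B v x‖ ≤ K * (ε * M) * ‖B v x‖ := by
        calc ‖B v x‖ ≤ K * (ε * ‖B t (B v x)‖) := by rw [← h7]; exact h5
          _ ≤ K * (ε * (M * ‖B v x‖)) := by gcongr; exact hMb _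
          _ = _ := by ring
      have h9 : ‖B v x‖ = 0 := by
        by_contra h0
        have : 0 < ‖B v x‖ := lt_of_le_of_ne (norm_nonneg _) (Ne.symm h0)
        nlinarith
      rw [hsk, norm_eq_zero.1 h9, neg_zero]
    · refine ⟨y, ⟨hyS, ?_⟩, ?_⟩
      · rintro v rfl
        exact hyX
      · rintro ⟨-, h⟩
        have h1 := h _ rfl
        rw [map_add, hyX, zero_add, map_smul, smul_eq_zero] at h1
        rcases h1 with h1 | h1
        · exact hε.ne' h1
        · exact hyt h1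
  have hfr := Submodule.finrank_lt_finrank_of_lt hlt
  rw [hX] at hfr
  exact Nat.find_min hex hfr ⟨_, hXt, rfl⟩

end Abs

end Pool.Agent.H357R3
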