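import Pool.Agent.H357R3.Lie
import Pool.Agent.Helper472.Lat_PW

set_option autoImplicit false

namespace Pool.Agent.H357R3

open Module Matrix Pool.LatH472 Filter Topology

section jordan

/-- Jordan: no proper subgroup of a finite group meets every conjugacy class -/
theorem jordan (Γ : Type*) [Group Γ] [Finite Γ] (H : Subgroup Γ)
    (h : ∀ g : Γ, ∃ a : Γ, a * g * a⁻¹ ∈ H) : H = ⊤ := by
  classical
  cases nonempty_fintype Γ
  have hB := MulAction.sum_card_fixedBy_eq_card_orbits_mul_card_group (G := Γ) (X := Γ ⧸ H)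
  have h1 : Fintype.card (Quotient (MulAction.orbitRel Γ (Γ ⧸ H))) = 1 := by
    rw [Fintype.card_eq_one_iff]
    refine ⟨Quotient.mk _ ((1 : Γ) : Γ ⧸ H), ?_⟩
    intro y
    induction y using Quotient.inductionOn with
    | h y =>
      apply Quotient.sound
      exact MulAction.exists_smul_eq Γ ((1 : Γ) : Γ ⧸ H) y
  rw [h1, one_mul] at hB
  have h2 : ∀ g ∈ (Finset.univ : Finset Γ), 1 ≤ Fintype.card (MulAction.fixedBy (Γ ⧸ H) g) := by
    intro g _
    obtain ⟨a, ha⟩ := h g
    refine Fintype.card_pos_iff.2 ⟨⟨((a⁻¹ : Γ) : Γ ⧸ H), ?_⟩⟩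
    rw [MulAction.mem_fixedBy]
    show (((g * a⁻¹ : Γ)) : Γ ⧸ H) = _
    rw [eq_comm, QuotientGroup.eq, inv_inv, ← mul_assoc]
    exact ha
  have h3 : ∑ g : Γ, 1 = ∑ g : Γ, Fintype.card (MulAction.fixedBy (Γ ⧸ H) g) := by
    rw [hB]; simp
  have h4 := (Finset.sum_eq_sum_iff_of_le h2).1 h3 1 (Finset.mem_univ _)
  have h5 : Fintype.card (MulAction.fixedBy (Γ ⧸ H) (1 : Γ)) = Fintype.card (Γ ⧸ H) := by
    apply Fintype.card_congr
    refine ⟨fun x => x.1, fun x => ⟨x, by simp⟩, fun _ => rfl, fun _ => rfl⟩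
  rw [h5] at h4
  rw [← Subgroup.index_eq_one, Subgroup.index, Nat.card_eq_fintype_card, ← h4]

end jordan

section ifdir

variable {G : Type*} [Group G] [TopologicalSpace G] [IsTopologicalGroup G] [CompactSpace G]

/-- profinite case -/
theorem profinite_case [TotallyDisconnectedSpace G] (H : Subgroup G) (hH : IsClosed (H : Set G))
    (h : ∀ g : G, ∃ a : G, a * g * a⁻¹ ∈ H) : H = ⊤ := by
  by_contra hne
  obtain ⟨k, hk⟩ : ∃ k, k ∉ H := by
    by_contra hcon
    push Not at hcon
    exact hne ((Subgroup.eq_top_iff' H).2 hcon)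
  have ho : IsOpen ((fun u : G => k * u) ⁻¹' ((H : Set G)ᶜ)) :=
    hH.isOpen_compl.preimage (by fun_prop)
  obtain ⟨U, hU⟩ := ProfiniteGrp.exist_openNormalSubgroup_sub_open_nhds_of_one ho
    (by show k * 1 ∉ H; rwa [mul_one])
  have hfin : Finite (G ⧸ U.toSubgroup) := inferInstance
  have hj := jordan (G ⧸ U.toSubgroup) (H.map (QuotientGroup.mk' U.toSubgroup)) (by
    intro g
    obtain ⟨g, rfl⟩ := QuotientGroup.mk_surjective g
    obtain ⟨a, ha⟩ := h g
    exact ⟨(a : G ⧸ U.toSubgroup), ⟨_, ha, rfl⟩⟩)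
  have hk2 : ((k : G) : G ⧸ U.toSubgroup) ∈ H.map (QuotientGroup.mk' U.toSubgroup) := by
    rw [hj]; trivial
  obtain ⟨x, hx, hxk⟩ := hk2
  have hxk' : ((k : G) : G ⧸ U.toSubgroup) = x := hxk.symm
  rw [QuotientGroup.eq] at hxk'
  have := hU hxk'
  apply this
  show k * (k⁻¹ * x) ∈ H
  rwa [mul_inv_cancel_left]

theorem if_dir [T2Space G] (N : Subgroup G) [N.Normal] (hN : IsClosed (N : Set G))
    (hab : ∀ a ∈ N, ∀ b ∈ N, a * b = b * a) (htd : TotallyDisconnectedSpace (G ⧸ N))
    (H : Subgroup G) (hH : IsClosed (H : Set G)) (h : ∀ g : G, ∃ a : G, a * g * a⁻¹ ∈ H) :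
    H = ⊤ := by
  have hmap : H.map (QuotientGroup.mk' N) = ⊤ := by
    apply profinite_case
    · have : T2Space (G ⧸ N) := by
        have := hN
        infer_instance
      exact ((hH.isCompact).image (QuotientGroup.continuous_mk)).isClosed
    · intro g
      obtain ⟨g, rfl⟩ := QuotientGroup.mk_surjective g
      obtain ⟨a, ha⟩ := h g
      exact ⟨(a : G ⧸ N), ⟨_, ha, rfl⟩⟩
  have hdec : ∀ g : G, ∃ x ∈ H, ∃ n ∈ N, g = n * x := by
    intro g
    have : ((g : G) : G ⧸ N) ∈ H.map (QuotientGroup.mk' N) := by rw [hmap]; trivial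
    obtain ⟨x, hx, hxg⟩ := this
    have hxg' : ((x : G) : G ⧸ N) = g := hxg
    rw [QuotientGroup.eq] at hxg'
    refine ⟨x, hx, x * (x⁻¹ * g) * x⁻¹, ‹N.Normal›.conj_mem _ hxg' x, ?_⟩
    group
  have hNH : N ≤ H := by
    intro n hn
    obtain ⟨a, ha⟩ := h n
    obtain ⟨x, hx, m, hm, rfl⟩ := hdec a
    have hxn : x * n * x⁻¹ ∈ N := ‹N.Normal›.conj_mem _ hn x
    have e : m * x * n * (m * x)⁻¹ = x * n * x⁻¹ := by
      have := hab m hm _ hxn
      calc m * x * n * (m * x)⁻¹ = (m * (x * n * x⁻¹)) * m⁻¹ := by group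
        _ = _ := by rw [this]; group
    rw [e] at ha
    have := H.mul_mem (H.mul_mem (H.inv_mem hx) ha) hx
    have e2 : x⁻¹ * (x * n * x⁻¹) * x = n := by group
    rwa [e2] at this
  rw [Subgroup.eq_top_iff']
  intro g
  obtain ⟨x, hx, n, hn, rfl⟩ := hdec g
  exact H.mul_mem (hNH hn) hx

end ifdir

section onlyif

variable {ι : Type} [Fintype ι] [DecidableEq ι]

/-- if the Lie algebra is commutative then elements near `1` commute, so the image of the identity
component is commutative -/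
theorem comm_of_lie {G : Type} [Group G] [TopologicalSpace G] [IsTopologicalGroup G]
    (ρ : G →* Matrix.unitaryGroup ι ℂ) (hρ : Continuous ρ)
    (hL : IsClosed (ρ.range : Set (Matrix.unitaryGroup ι ℂ)))
    (hab : ∀ X ∈ lie ρ.range hL, ∀ Y ∈ lie ρ.range hL, X * Y = Y * X) :
    ∀ x ∈ connectedComponent (1 : G), ∀ y ∈ connectedComponent (1 : G), ρ x * ρ y = ρ y * ρ x := by
  obtain ⟨O, hO, hexp⟩ := CST2 CST1 ι ρ.range hL Set.univ univ_mem
  have hcomm : ∀ u ∈ ρ.range, u ∈ O → ∀ v ∈ ρ.range, v ∈ O → u * v = v * u := by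
    intro u hu huO v hv hvO
    obtain ⟨X, hX, -, hXu⟩ := hexp u hu huO
    obtain ⟨Y, hY, -, hYv⟩ := hexp v hv hvO
    have hc : Commute X Y := hab X hX Y hY
    apply Subtype.ext
    show (u : Matrix ι ι ℂ) * v = v * u
    rw [← hXu, ← hYv, ← Matrix.exp_add_of_commute _ _ hc, ← Matrix.exp_add_of_commute _ _ hc.symm,
      add_comm]
  let M : Subgroup G := Subgroup.closure (ρ ⁻¹' O)
  have hMo : IsOpen (M : Set G) := by
    apply Subgroup.isOpen_of_mem_nhds (g := 1)
    have : ρ ⁻¹' O ∈ 𝓝 (1 : G) := by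
      apply hρ.continuousAt.preimage_mem_nhds
      rwa [map_one]
    exact mem_of_superset this Subgroup.subset_closure
  have hMc : IsClosed (M : Set G) := Subgroup.isClosed_of_isOpen M hMo
  have hsub : connectedComponent (1 : G) ⊆ M :=
    IsClopen.connectedComponent_subset ⟨hMc, hMo⟩ M.one_mem
  have h1 : ∀ x ∈ M, ∀ y ∈ ρ ⁻¹' O, ρ x * ρ y = ρ y * ρ x := by
    intro x hx y hy
    induction hx using Subgroup.closure_induction with
    | mem z hz => exact hcomm _ ⟨z, rfl⟩ hz _ ⟨y, rfl⟩ hy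
    | one => simp
    | mul a b _ _ ha hb => rw [map_mul, mul_assoc, hb, ← mul_assoc, ha, mul_assoc]
    | inv a _ ha =>
      rw [map_inv]
      exact (Commute.inv_left (show Commute (ρ a) (ρ y) from ha))
  have h2 : ∀ x ∈ M, ∀ y ∈ M, ρ x * ρ y = ρ y * ρ x := by
    intro x hx y hy
    induction hy using Subgroup.closure_induction with
    | mem z hz => exact h1 x hx z hz
    | one => simp
    | mul a b _ _ ha hb => rw [map_mul, ← mul_assoc, ha, mul_assoc, hb, mul_assoc]
    | inv a _ ha =>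
      rw [map_inv]
      exact (Commute.inv_right (show Commute (ρ x) (ρ a) from ha))
  exact fun x hx y hy => h2 x (hsub hx) y (hsub hy)

theorem onlyif_dir {G : Type} [Group G] [TopologicalSpace G] [IsTopologicalGroup G]
    [CompactSpace G] [T2Space G]
    (h : ∀ H : Subgroup G, IsClosed (H : Set G) → (∀ g : G, ∃ a : G, a * g * a⁻¹ ∈ H) → H = ⊤) :
    ∀ x ∈ connectedComponent (1 : G), ∀ y ∈ connectedComponent (1 : G), x * y = y * x := by
  by_contra hcon
  push Not at hcon
  obtain ⟨x, hx, y, hy, hxy⟩ := hcon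
  have hk : x * y * x⁻¹ * y⁻¹ ≠ 1 := by
    intro h0
    apply hxy
    rw [mul_inv_eq_one, mul_inv_eq_iff_eq_mul] at h0
    exact h0
  obtain ⟨ι, _, _, ρ, hρ, hρk⟩ := PW G _ hk
  have hc : IsCompact (ρ.range : Set (Matrix.unitaryGroup ι ℂ)) := by
    rw [MonoidHom.coe_range]
    exact isCompact_range hρ
  have hL : IsClosed (ρ.range : Set (Matrix.unitaryGroup ι ℂ)) := hc.isClosed
  obtain ⟨T, hT, hTn⟩ := exists_norm ρ.range hL hc
  let H : Subgroup G :=
    { carrier := {g | (∀ X ∈ T, cj (ρ g) X ∈ T) ∧ (∀ X ∈ T, cj (ρ g)⁻¹ X ∈ T)}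
      mul_mem' := by
        rintro a b ⟨ha, ha'⟩ ⟨hb, hb'⟩
        refine ⟨fun X hX => ?_, fun X hX => ?_⟩
        · rw [map_mul, cj_mul]
          exact ha _ (hb _ hX)
        · rw [map_mul, _root_.mul_inv_rev, cj_mul]
          exact hb' _ (ha' _ hX)
      one_mem' := by
        refine ⟨fun X hX => ?_, fun X hX => ?_⟩
        · rw [map_one, cj_one]; exact hX
        · rw [map_one, inv_one, cj_one]; exact hX
      inv_mem' := by
        rintro a ⟨ha, ha'⟩
        refine ⟨fun X hX => ?_, fun X hX => ?_⟩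
        · rw [map_inv]; exact ha' X hX
        · rw [map_inv, inv_inv]; exact ha X hX }
  have hTc : IsClosed ((T : Submodule ℝ (Matrix ι ι ℂ)) : Set (Matrix ι ι ℂ)) :=
    Submodule.closed_of_finiteDimensional _
  have hHc : IsClosed (H : Set G) := by
    have e : (H : Set G) = (⋂ X ∈ T, {g | cj (ρ g) X ∈ (T : Set (Matrix ι ι ℂ))}) ∩
        (⋂ X ∈ T, {g | cj (ρ g)⁻¹ X ∈ (T : Set (Matrix ι ι ℂ))}) := by
      ext g
      simp only [Set.mem_inter_iff, Set.mem_iInter, Set.mem_ofPred_eq, SetLike.mem_coe]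
      exact Iff.rfl
    rw [e]
    refine IsClosed.inter ?_ ?_
    · refine isClosed_biInter fun X _ => hTc.preimage ?_
      simp only [cj_apply]
      have hv : Continuous fun g : G => ((ρ g : Matrix.unitaryGroup ι ℂ) : Matrix ι ι ℂ) :=
        continuous_subtype_val.comp hρ
      fun_prop
    · refine isClosed_biInter fun X _ => hTc.preimage ?_
      simp only [cj_apply]
      have hv : Continuous fun g : G => (((ρ g)⁻¹ : Matrix.unitaryGroup ι ℂ) : Matrix ι ι ℂ) :=
        continuous_subtype_val.comp hρ.inv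
      fun_prop
  have hHT : H = ⊤ := by
    apply h H hHc
    intro g
    obtain ⟨_, ⟨a, rfl⟩, ha1, ha2⟩ := hTn (ρ g) ⟨g, rfl⟩
    refine ⟨a, fun X hX => ?_, fun X hX => ?_⟩
    · rw [map_mul, map_mul, map_inv]; exact ha1 X hX
    · rw [map_mul, map_mul, map_inv]; exact ha2 X hX
  have hstab : ∀ u ∈ ρ.range, ∀ X ∈ T, cj u X ∈ T := by
    rintro _ ⟨g, rfl⟩ X hX
    have : g ∈ H := by rw [hHT]; trivial
    exact this.1 X hX
  have hideal : ∀ X ∈ lie ρ.range hL, ∀ Y ∈ T, brk ι X Y ∈ T := by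
    intro X hX Y hY
    rw [brk_apply]
    refine hTc.mem_of_tendsto (adj_mat X Y) (Eventually.of_forall fun t => ?_)
    refine Submodule.smul_mem _ _ (Submodule.sub_mem _ ?_ hY)
    obtain ⟨u, hu, hu2⟩ := hX.2 t
    have h3 : NormedSpace.exp (t • (-X)) = star (u : Matrix ι ι ℂ) := by
      rw [hu2, Matrix.star_eq_conjTranspose, ← Matrix.exp_conjTranspose,
        Matrix.conjTranspose_smul, hX.1, star_trivial]
    rw [h3, ← hu2]
    exact hstab u hu Y hY
  have hcentral : ∀ X ∈ lie ρ.range hL, ∀ Y ∈ T, X * Y = Y * X := by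
    intro X hX Y hY
    have h1 : brk ι Y (brk ι X Y) = 0 :=
      (brk_zero_iff _ _).2 (hT.2.1 Y hY _ (hideal X hX Y hY))
    have h2 := ip_inv Y (lie_skew _ hL Y (hT.1 hY)) X (brk ι X Y)
    rw [h1, brk_skew Y X, Matrix.mul_zero, Matrix.trace_zero, Complex.zero_re, neg_zero,
      Matrix.conjTranspose_neg, Matrix.neg_mul, Matrix.trace_neg, Complex.neg_re, neg_eq_zero] at h2
    exact (brk_zero_iff _ _).1 ((mcore ι).definite _ h2)
  have hall : ∀ X ∈ lie ρ.range hL, X ∈ T := fun X hX => hT.2.2 X hX (hcentral X hX)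
  have hfin := comm_of_lie ρ hρ hL (fun X hX Y hY => hcentral X hX Y (hall Y hY)) x hx y hy
  apply hρk
  rw [map_mul, map_mul, map_mul, hfin, map_inv, map_inv]
  group

end onlyif

/-- main equivalence -/
theorem tig_iff (G : Type) [Group G] [TopologicalSpace G] [IsTopologicalGroup G] [CompactSpace G]
      [T2Space G] :
      (∀ f : G → G,
          (Subgroup.closure (Set.range (fun x : G => f x * x * (f x)⁻¹))).topologicalClosure = ⊤) ↔
        ∃ N : Subgroup G, N.Normal ∧ IsClosed (N : Set G) ∧ IsConnected (N : Set G) ∧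
          (∀ a ∈ N, ∀ b ∈ N, a * b = b * a) ∧ TotallyDisconnectedSpace (G ⧸ N) := by
  constructor
  · intro h
    have h' : ∀ H : Subgroup G, IsClosed (H : Set G) → (∀ g : G, ∃ a : G, a * g * a⁻¹ ∈ H) →
        H = ⊤ := by
      intro H hH ha
      choose f hf using ha
      rw [eq_top_iff, ← h f]
      apply Subgroup.topologicalClosure_minimal _ _ hH
      rw [Subgroup.closure_le]
      rintro _ ⟨x, rfl⟩
      exact hf x
    have hnorm : (Subgroup.connectedComponentOfOne G).Normal := by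
      refine ⟨fun n hn g => ?_⟩
      have hc : Continuous fun x : G => g * x * g⁻¹ := by fun_prop
      have h1 := hc.mapsTo_connectedComponent 1
      have h2 := h1 hn
      have e : g * 1 * g⁻¹ = 1 := by simp
      rw [e] at h2
      exact h2
    refine ⟨Subgroup.connectedComponentOfOne G, hnorm, isClosed_connectedComponent,
      isConnected_connectedComponent, fun a ha b hb => onlyif_dir h' a ha b hb, ?_⟩
    rw [totallyDisconnectedSpace_iff_connectedComponent_one]
    have hq := (QuotientGroup.isQuotientMap_mk (Subgroup.connectedComponentOfOne G)).isCoinducing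
    have hfib : ∀ y : G ⧸ Subgroup.connectedComponentOfOne G,
        IsConnected ((QuotientGroup.mk : G → G ⧸ Subgroup.connectedComponentOfOne G) ⁻¹' {y}) := by
      intro y
      obtain ⟨g, rfl⟩ := QuotientGroup.mk_surjective y
      have e : (QuotientGroup.mk : G → G ⧸ Subgroup.connectedComponentOfOne G) ⁻¹'
          {(g : G ⧸ Subgroup.connectedComponentOfOne G)} =
          (fun x => g * x) '' connectedComponent (1 : G) := by
        ext x
        simp only [Set.mem_preimage, Set.mem_singleton_iff, Set.mem_image]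
        rw [eq_comm, QuotientGroup.eq]
        constructor
        · intro hx
          exact ⟨g⁻¹ * x, hx, by group⟩
        · rintro ⟨z, hz, rfl⟩
          rw [inv_mul_cancel_left]
          exact hz
      rw [e]
      exact isConnected_connectedComponent.image _ (by fun_prop)
    have him := hq.image_connectedComponent hfib (1 : G)
    rw [← QuotientGroup.mk_one, ← him]
    ext y
    simp only [Set.mem_image, Set.mem_singleton_iff]
    constructor
    · rintro ⟨x, hx, rfl⟩
      rw [QuotientGroup.mk_one, QuotientGroup.eq_one_iff]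
      exact hx
    · rintro rfl
      exact ⟨1, mem_connectedComponent, rfl⟩
  · rintro ⟨N, hN, hNc, -, hNab, hNtd⟩ f
    apply if_dir N hNc hNab hNtd
    · exact Subgroup.isClosed_topologicalClosure _
    · intro g
      exact ⟨f g, Subgroup.le_topologicalClosure _ (Subgroup.subset_closure ⟨g, rfl⟩)⟩

end Pool.Agent.H357R3
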