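import Pool.Agent.H369R3.UT.Defs

/-!
# Task M of project H369-UT: an upper semicontinuous function on a closed ball
-/

set_option autoImplicit false

open Set Filter Topology Metric MeasureTheory

namespace Pool.Agent.H357R3.UTM

theorem taskM : Pool.Agent.H369R3.UT.TaskM := by
  classical
  intro n μ _ Ω k u a R hu hsub
  obtain ⟨husc, hlow, _⟩ := hu
  have hus : UpperSemicontinuousOn u (closedBall a R) := husc.mono hsub
  have hcomp : IsCompact (closedBall a R) := isCompact_closedBall a R
  obtain ⟨C₀, hC₀⟩ := hus.bddAbove_of_isCompact hcomp
  set C : ℝ := max C₀ 0 with hC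
  have hCb : ∀ x ∈ closedBall a R, u x ≤ C := fun x hx =>
    (hC₀ (mem_image_of_mem u hx)).trans (le_max_left _ _)
  have hmeas : Measurable ((closedBall a R).indicator u) := by
    refine measurable_of_Ici fun c => ?_
    have hS : MeasurableSet (closedBall a R ∩ u ⁻¹' Ici c) := by
      obtain ⟨v, hv, hv2⟩ := upperSemicontinuousOn_iff_preimage_Ici.1 hus c
      rw [hv2]
      exact measurableSet_closedBall.inter hv.measurableSet
    by_cases hc : c ≤ 0
    · have : (closedBall a R).indicator u ⁻¹' Ici c =
          (closedBall a R ∩ u ⁻¹' Ici c) ∪ (closedBall a R)ᶜ := by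
        ext x
        by_cases hx : x ∈ closedBall a R
        · simp [hx, -mem_closedBall]
        · simp [hx, hc, -mem_closedBall]
      rw [this]
      exact hS.union measurableSet_closedBall.compl
    · have : (closedBall a R).indicator u ⁻¹' Ici c = closedBall a R ∩ u ⁻¹' Ici c := by
        ext x
        by_cases hx : x ∈ closedBall a R
        · simp [hx, -mem_closedBall]
        · simp [hx, hc, -mem_closedBall]
      rw [this]
      exact hS
  refine ⟨hmeas, ?_, C, le_max_right _ _, hCb⟩
  have hg : Integrable ((closedBall a R).indicator fun _ => max C |k|) μ := by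
    refine (integrable_indicator_iff measurableSet_closedBall).2 ?_
    exact integrableOn_const (hs := (measure_closedBall_lt_top (x := a) (r := R)).ne)
  refine hg.mono' hmeas.aestronglyMeasurable (Eventually.of_forall fun x => ?_)
  by_cases hx : x ∈ closedBall a R
  · rw [indicator_of_mem hx, indicator_of_mem hx, Real.norm_eq_abs, abs_le]
    have h1 := hCb x hx
    have h2 := hlow x (hsub hx)
    have h3 := le_max_left C |k|
    have h4 := le_max_right C |k|
    have h5 := le_abs_self k
    constructor <;> linarith
  · rw [indicator_of_notMem hx, indicator_of_notMem hx]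
    simp

end Pool.Agent.H357R3.UTM
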